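import Pool.Agent.R671.DR.Defs

/-! Elementary facts on the tree. -/

namespace Pool.Agent.R671.DR

open MeasureTheory Set
open scoped ENNReal

theorem sum_level (φ : ℕ → ℝ) (n : ℕ) :
    ∑ k ∈ Finset.range (2 ^ (n + 1)), φ k
      = ∑ k ∈ Finset.range (2 ^ n), (φ (2 * k) + φ (2 * k + 1)) := by
  have : ∀ m : ℕ, ∑ k ∈ Finset.range (2 * m), φ k
      = ∑ k ∈ Finset.range m, (φ (2 * k) + φ (2 * k + 1)) := by
    intro m
    induction m with
    | zero => simp
    | succ m ih =>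
      rw [show 2 * (m + 1) = 2 * m + 1 + 1 by ring, Finset.sum_range_succ, Finset.sum_range_succ,
        ih, Finset.sum_range_succ]
      ring
  rw [pow_succ, mul_comm]
  exact this _

theorem X_even (l l' x0 : ℝ) (n k : ℕ) : X l l' x0 (n + 1) (2 * k) = G0 l (X l l' x0 n k) := by
  simp [X]

theorem X_odd (l l' x0 : ℝ) (n k : ℕ) :
    X l l' x0 (n + 1) (2 * k + 1) = G1 l' (X l l' x0 n k) := by
  have h1 : (2 * k + 1) % 2 = 1 := by omega
  have h2 : (2 * k + 1) / 2 = k := by omega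
  simp [X, h1, h2]

theorem Ms_even (l l' x0 : ℝ) (n k : ℕ) :
    Ms l l' x0 (n + 1) (2 * k)
      = Ms l l' x0 n k * (X l l' x0 n k / (X l l' x0 n k + 1)) := by
  simp [Ms, P]

theorem Ms_odd (l l' x0 : ℝ) (n k : ℕ) :
    Ms l l' x0 (n + 1) (2 * k + 1)
      = Ms l l' x0 n k * (1 / (X l l' x0 n k + 1)) := by
  have h1 : (2 * k + 1) % 2 = 1 := by omega
  have h2 : (2 * k + 1) / 2 = k := by omega
  simp [Ms, P, h1, h2]

theorem G0_pos {l x : ℝ} (hl : 0 < l) (hx : 0 < x) : 0 < G0 l x := by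
  unfold G0; positivity

theorem G1_pos {l' x : ℝ} (hl' : 0 < l') (hx : 0 < x) : 0 < G1 l' x := by
  unfold G1; positivity

theorem X_pos {l l' x0 : ℝ} (hl : 0 < l) (hl' : 0 < l') (hx : 0 < x0) (n k : ℕ) :
    0 < X l l' x0 n k := by
  induction n generalizing k with
  | zero => simpa [X] using hx
  | succ n ih =>
    simp only [X]
    split_ifs
    · exact G0_pos hl (ih _)
    · exact G1_pos hl' (ih _)

theorem P_pos {x : ℝ} (hx : 0 < x) (k : ℕ) : 0 < P k x := by
  unfold P; split_ifs <;> positivity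

theorem P_le_one {x : ℝ} (hx : 0 < x) (k : ℕ) : P k x ≤ 1 := by
  unfold P; split_ifs
  · rw [div_le_one (by positivity)]; linarith
  · rw [div_le_one (by positivity)]; linarith

theorem Ms_pos {l l' x0 : ℝ} (hl : 0 < l) (hl' : 0 < l') (hx : 0 < x0) (n k : ℕ) :
    0 < Ms l l' x0 n k := by
  induction n generalizing k with
  | zero => simp [Ms]
  | succ n ih =>
    simp only [Ms]
    exact mul_pos (ih _) (P_pos (X_pos hl hl' hx _ _) _)

theorem sum_Ms {l l' x0 : ℝ} (hl : 0 < l) (hl' : 0 < l') (hx : 0 < x0) (n : ℕ) :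
    ∑ k ∈ Finset.range (2 ^ n), Ms l l' x0 n k = 1 := by
  induction n with
  | zero => simp [Ms]
  | succ n ih =>
    rw [sum_level, ← ih]
    refine Finset.sum_congr rfl fun k _ => ?_
    rw [Ms_even, Ms_odd]
    have := X_pos hl hl' hx n k
    field_simp

theorem G0_mem {l l' x0 : ℝ} (hl : 1 < l) {x : ℝ} (hx : x ∈ Icc (lo l l' x0) (hi l l' x0)) :
    G0 l x ∈ Icc (lo l l' x0) (hi l l' x0) := by
  have hr : lo l l' x0 ≤ 1 / (l - 1) := le_trans (min_le_right _ _) (min_le_left _ _)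
  have hr' : 1 / (l - 1) ≤ hi l l' x0 := le_trans (le_max_left _ _) (le_max_right _ _)
  have h1 : (0:ℝ) < l - 1 := by linarith
  have h0 : (0:ℝ) < l := by linarith
  have key : G0 l x = x / l + (1 - 1 / l) * (1 / (l - 1)) := by
    unfold G0; field_simp
  have hw : 0 ≤ 1 - 1 / l := by
    rw [sub_nonneg, div_le_one h0]; linarith
  constructor
  · rw [key]
    calc lo l l' x0 = lo l l' x0 / l + (1 - 1 / l) * lo l l' x0 := by field_simp; ring
      _ ≤ _ := add_le_add (by gcongr; exact hx.1) (mul_le_mul_of_nonneg_left hr hw)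
  · rw [key]
    calc x / l + (1 - 1 / l) * (1 / (l - 1)) ≤ hi l l' x0 / l + (1 - 1 / l) * hi l l' x0 :=
          add_le_add (by gcongr; exact hx.2) (mul_le_mul_of_nonneg_left hr' hw)
      _ = hi l l' x0 := by field_simp; ring

theorem lo_pos {l l' x0 : ℝ} (hl : 1 < l) (hl' : 1 < l') (hx : 0 < x0) : 0 < lo l l' x0 := by
  unfold lo
  have h1 : (0:ℝ) < l - 1 := by linarith
  exact lt_min hx (lt_min (by positivity) (by linarith))

theorem G1_mem {l l' x0 : ℝ} (hl : 1 < l) (hl' : 1 < l') (hx0 : 0 < x0) {x : ℝ}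
    (hx : x ∈ Icc (lo l l' x0) (hi l l' x0)) : G1 l' x ∈ Icc (lo l l' x0) (hi l l' x0) := by
  have hr : lo l l' x0 ≤ l' - 1 := le_trans (min_le_right _ _) (min_le_right _ _)
  have hr' : l' - 1 ≤ hi l l' x0 := le_trans (le_max_right _ _) (le_max_right _ _)
  have hlo := lo_pos hl hl' hx0
  have hxp : 0 < x := lt_of_lt_of_le hlo hx.1
  have h1 : 0 < x + 1 := by linarith
  constructor
  · unfold G1
    rw [le_div_iff₀ h1]
    nlinarith [hx.1, hx.2]
  · unfold G1
    rw [div_le_iff₀ h1]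
    have hhi : 0 < hi l l' x0 := by linarith [hx.1, hx.2]
    nlinarith [hx.1, hx.2]

theorem X_mem {l l' x0 : ℝ} (hl : 1 < l) (hl' : 1 < l') (hx0 : 0 < x0) (n k : ℕ) :
    X l l' x0 n k ∈ Icc (lo l l' x0) (hi l l' x0) := by
  induction n generalizing k with
  | zero => simp only [X]; exact ⟨min_le_left _ _, le_max_left _ _⟩
  | succ n ih =>
    simp only [X]
    split_ifs
    · exact G0_mem hl (ih _)
    · exact G1_mem hl hl' hx0 (ih _)

theorem mem_I_iff {n k : ℕ} {x : ℝ} (hx : 0 ≤ x) : x ∈ I n k ↔ idx n x = k := by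
  have h2 : (0:ℝ) < 2 ^ n := by positivity
  unfold I idx
  rw [Nat.floor_eq_iff (by positivity), mem_Ico, div_le_iff₀ h2, lt_div_iff₀ h2, mul_comm x]

theorem mem_I_idx (n : ℕ) {x : ℝ} (hx : 0 ≤ x) : x ∈ I n (idx n x) := (mem_I_iff hx).2 rfl

theorem idx_lt (n : ℕ) {x : ℝ} (hx : x ∈ Ico (0:ℝ) 1) : idx n x < 2 ^ n := by
  unfold idx
  have h2 : (0:ℝ) < 2 ^ n := by positivity
  have : (2:ℝ) ^ n * x < ((2 ^ n : ℕ) : ℝ) := by
    push_cast
    nlinarith [hx.2]
  exact (Nat.floor_lt (mul_nonneg h2.le hx.1)).2 this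

theorem idx_succ (n : ℕ) {x : ℝ} (hx : 0 ≤ x) : idx (n + 1) x / 2 = idx n x := by
  unfold idx
  have h : (2:ℝ) ^ n * x = ((2:ℝ) ^ (n + 1) * x) / ((2:ℕ):ℝ) := by push_cast; ring
  rw [h, Nat.floor_div_natCast]

theorem measurableSet_I (n k : ℕ) : MeasurableSet (I n k) := measurableSet_Ico

theorem I_disjoint (n : ℕ) {j k : ℕ} (h : j ≠ k) : Disjoint (I n j) (I n k) := by
  rw [Set.disjoint_left]
  intro x hj hk
  have hx : 0 ≤ x := le_trans (by positivity) hj.1
  exact h (((mem_I_iff hx).1 hj).symm.trans ((mem_I_iff hx).1 hk))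

theorem I_union (n k : ℕ) : I n k = I (n + 1) (2 * k) ∪ I (n + 1) (2 * k + 1) := by
  ext x
  by_cases hx : 0 ≤ x
  · rw [Set.mem_union, mem_I_iff hx, mem_I_iff hx, mem_I_iff hx, ← idx_succ n hx]
    omega
  · constructor
    · intro h
      exact absurd (le_trans (by positivity) h.1) hx
    · rintro (h | h) <;> exact absurd (le_trans (by positivity) h.1) hx

end Pool.Agent.R671.DR
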