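import Pool.Agent.R671.DR.Base

set_option autoImplicit false

namespace Pool.Agent.R671.DR

open MeasureTheory Set

namespace CONp

theorem P0_eq (x : ℝ) : P 0 x = x / (x + 1) := by simp [P]

theorem P1_eq (x : ℝ) : P 1 x = 1 / (x + 1) := by simp [P]

theorem P_sum {x : ℝ} (hx : 0 < x) : P 0 x + P 1 x = 1 := by
  rw [P0_eq, P1_eq]
  field_simp

theorem H_eq {x : ℝ} (hx : 0 < x) :
    H x = -(P 0 x * Real.log (P 0 x) + P 1 x * Real.log (P 1 x)) := by
  have h1 : 1 - x / (x + 1) = 1 / (x + 1) := by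
    field_simp
    ring
  unfold H
  rw [Real.binEntropy, h1, P0_eq, P1_eq, Real.log_inv, Real.log_inv]
  ring

/-- `p ^ t ≤ 1 + t log p + t ^ 2 L ^ 2` -/
theorem rpow_bd {p t d : ℝ} (hd : 0 < d) (hdp : d ≤ p) (hp1 : p ≤ 1) (ht : 0 ≤ t)
    (htL : t * (-Real.log d) ≤ 1) :
    p ^ (1 + t) ≤ p * (1 + t * Real.log p + (Real.log d) ^ 2 * t ^ 2) := by
  have hp : 0 < p := hd.trans_le hdp
  have hlp : Real.log p ≤ 0 := Real.log_nonpos hp.le hp1
  have hld : Real.log d ≤ Real.log p := Real.log_le_log hd hdp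
  rw [Real.rpow_add hp, Real.rpow_one, Real.rpow_def_of_pos hp]
  refine mul_le_mul_of_nonneg_left ?_ hp.le
  have h1 : |Real.log p * t| ≤ 1 := by
    rw [abs_of_nonpos (mul_nonpos_of_nonpos_of_nonneg hlp ht)]
    nlinarith
  have h2 := Real.abs_exp_sub_one_sub_id_le h1
  have h3 := (abs_le.1 h2).2
  have h4 : (Real.log p * t) ^ 2 ≤ (Real.log d) ^ 2 * t ^ 2 := by
    rw [mul_pow]
    have : Real.log p ^ 2 ≤ Real.log d ^ 2 := by nlinarith
    exact mul_le_mul_of_nonneg_right this (sq_nonneg t)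
  linarith

theorem Phi_bd {x t d θ : ℝ} (hx : 0 < x) (hd : 0 < d) (h0 : d ≤ P 0 x) (h1 : d ≤ P 1 x)
    (ht : 0 ≤ t) (htL : t * (-Real.log d) ≤ 1) :
    Real.exp (t * θ) * (P 0 x ^ (1 + t) + P 1 x ^ (1 + t)) ≤
      Real.exp (-(t * (H x - θ)) + (Real.log d) ^ 2 * t ^ 2) := by
  have e0 := rpow_bd hd h0 (P_le_one hx 0) ht htL
  have e1 := rpow_bd hd h1 (P_le_one hx 1) ht htL
  have hs := P_sum hx
  have hH := H_eq hx
  have h2 : P 0 x ^ (1 + t) + P 1 x ^ (1 + t) ≤ 1 + (-(t * H x) + (Real.log d) ^ 2 * t ^ 2) := by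
    have h3 : P 0 x * (1 + t * Real.log (P 0 x) + (Real.log d) ^ 2 * t ^ 2) +
        P 1 x * (1 + t * Real.log (P 1 x) + (Real.log d) ^ 2 * t ^ 2) =
        (P 0 x + P 1 x) * (1 + (Real.log d) ^ 2 * t ^ 2) - t * H x := by
      rw [hH]; ring
    rw [hs] at h3
    linarith
  have h4 : P 0 x ^ (1 + t) + P 1 x ^ (1 + t) ≤
      Real.exp (-(t * H x) + (Real.log d) ^ 2 * t ^ 2) := by
    have := Real.add_one_le_exp (-(t * H x) + (Real.log d) ^ 2 * t ^ 2)
    linarith
  calc Real.exp (t * θ) * (P 0 x ^ (1 + t) + P 1 x ^ (1 + t)) ≤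
      Real.exp (t * θ) * Real.exp (-(t * H x) + (Real.log d) ^ 2 * t ^ 2) :=
        mul_le_mul_of_nonneg_left h4 (Real.exp_pos _).le
    _ = Real.exp (-(t * (H x - θ)) + (Real.log d) ^ 2 * t ^ 2) := by
        rw [← Real.exp_add]
        congr 1
        ring

theorem H_cont {a b : ℝ} (ha : 0 < a) : ContinuousOn H (Icc a b) := by
  unfold H
  apply Real.binEntropy_continuous.comp_continuousOn
  refine ContinuousOn.div continuousOn_id (continuousOn_id.add continuousOn_const) ?_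
  intro x hx
  have : 0 < x := lt_of_lt_of_le ha hx.1
  show x + 1 ≠ 0
  linarith

end CONp

open CONp

theorem contraction (l l' a b θ : ℝ) (hl : 1 < l) (hl' : 1 < l') (ha : 0 < a) (hab : a ≤ b)
    (h0 : ∀ x ∈ Icc a b, G0 l x ∈ Icc a b) (h1 : ∀ x ∈ Icc a b, G1 l' x ∈ Icc a b)
    (hθ0 : 0 ≤ θ) (hθ : ∀ x ∈ Icc a b, θ ≤ H x)
    (hpt : ∀ x ∈ Icc a b, θ < max (H x) (max (H (G0 l x)) (H (G1 l' x)))) :
    ∃ t r : ℝ, 0 < t ∧ t ≤ 1 ∧ 0 ≤ r ∧ r < 1 ∧ ∀ x ∈ Icc a b,
      Real.exp (2 * t * θ) *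
        (P 0 x ^ (1 + t) * (P 0 (G0 l x) ^ (1 + t) + P 1 (G0 l x) ^ (1 + t)) +
         P 1 x ^ (1 + t) * (P 0 (G1 l' x) ^ (1 + t) + P 1 (G1 l' x) ^ (1 + t))) ≤ r := by
  -- the uniform gap
  have hG0c : ContinuousOn (fun x => G0 l x) (Icc a b) := by
    unfold G0
    exact (continuousOn_id.add continuousOn_const).div_const l
  have hG1c : ContinuousOn (fun x => G1 l' x) (Icc a b) := by
    unfold G1
    refine ContinuousOn.div (continuousOn_const.mul continuousOn_id)
      (continuousOn_id.add continuousOn_const) ?_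
    intro x hx
    have : 0 < x := lt_of_lt_of_le ha hx.1
    show x + 1 ≠ 0
    linarith
  have hmc : ContinuousOn (fun x => max (H x) (max (H (G0 l x)) (H (G1 l' x)))) (Icc a b) := by
    exact ContinuousOn.sup (H_cont ha)
      (ContinuousOn.sup ((H_cont ha).comp hG0c h0) ((H_cont ha).comp hG1c h1))
  obtain ⟨xs, hxs, hmin⟩ := isCompact_Icc.exists_isMinOn (nonempty_Icc.2 hab) hmc
  set ε := max (H xs) (max (H (G0 l xs)) (H (G1 l' xs))) - θ with hε
  have hεp : 0 < ε := sub_pos.2 (hpt xs hxs)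
  have hgap : ∀ x ∈ Icc a b, θ + ε ≤ max (H x) (max (H (G0 l x)) (H (G1 l' x))) := by
    intro x hx
    have := hmin hx
    simp only [Set.mem_ofPred_eq] at this
    linarith
  -- the lower bound of the probabilities
  set d := min (a / (a + 1)) (1 / (b + 1)) with hd
  have hb : 0 < b := lt_of_lt_of_le ha hab
  have hd0 : 0 < d := by
    rw [hd]; positivity
  have hd1 : d ≤ 1 := by
    refine (min_le_right _ _).trans ?_
    rw [div_le_one (by positivity)]
    linarith
  have hP0 : ∀ x ∈ Icc a b, d ≤ P 0 x := by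
    intro x hx
    have hx0 : 0 < x := lt_of_lt_of_le ha hx.1
    rw [P0_eq]
    refine (min_le_left _ _).trans ?_
    rw [div_le_div_iff₀ (by positivity) (by positivity)]
    nlinarith [hx.1]
  have hP1 : ∀ x ∈ Icc a b, d ≤ P 1 x := by
    intro x hx
    have hx0 : 0 < x := lt_of_lt_of_le ha hx.1
    rw [P1_eq]
    refine (min_le_right _ _).trans ?_
    exact one_div_le_one_div_of_le (by positivity) (by linarith [hx.2])
  set L := -Real.log d with hL
  have hL0 : 0 ≤ L := by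
    rw [hL]
    have := Real.log_nonpos hd0.le hd1
    linarith
  set C := (Real.log d) ^ 2 with hC
  have hC0 : 0 ≤ C := sq_nonneg _
  -- choice of t
  have hden : 0 < 1 + L + 8 * C + 16 * C / (d ^ 2 * ε) + 2 * ε := by positivity
  obtain ⟨t, ht0, ht1, htL, htC, htε, htd, htε2⟩ : ∃ t : ℝ, 0 < t ∧ t ≤ 1 ∧ t * L ≤ 1 ∧
      2 * C * t ^ 2 ≤ 1 ∧ 2 * C * t < ε ∧ 8 * C * t < d ^ 2 * ε ∧ t * ε ≤ 1 / 2 := by
    refine ⟨min (min (1 / (1 + L)) (1 / (1 + 2 * C))) (min (min (ε / (1 + 2 * C))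
      (d ^ 2 * ε / (1 + 8 * C))) (1 / (2 * ε))), ?_, ?_, ?_, ?_, ?_, ?_, ?_⟩
    · positivity
    · refine (min_le_left _ _).trans ((min_le_left _ _).trans ?_)
      rw [div_le_one (by positivity)]
      linarith
    · set t := min (min (1 / (1 + L)) (1 / (1 + 2 * C))) (min (min (ε / (1 + 2 * C))
        (d ^ 2 * ε / (1 + 8 * C))) (1 / (2 * ε))) with ht
      have ht0 : 0 < t := by rw [ht]; positivity
      have h2 : t ≤ 1 / (1 + L) := (min_le_left _ _).trans (min_le_left _ _)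
      rw [le_div_iff₀ (by positivity)] at h2
      nlinarith
    · set t := min (min (1 / (1 + L)) (1 / (1 + 2 * C))) (min (min (ε / (1 + 2 * C))
        (d ^ 2 * ε / (1 + 8 * C))) (1 / (2 * ε))) with ht
      have ht0 : 0 < t := by rw [ht]; positivity
      have h1 : t ≤ 1 / (1 + L) := (min_le_left _ _).trans (min_le_left _ _)
      have h2 : t ≤ 1 / (1 + 2 * C) := (min_le_left _ _).trans (min_le_right _ _)
      rw [le_div_iff₀ (by positivity)] at h1 h2
      have h3 : t ≤ 1 := by nlinarith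
      have h4 : 2 * C * t ≤ 1 := by nlinarith
      nlinarith
    · set t := min (min (1 / (1 + L)) (1 / (1 + 2 * C))) (min (min (ε / (1 + 2 * C))
        (d ^ 2 * ε / (1 + 8 * C))) (1 / (2 * ε))) with ht
      have ht0 : 0 < t := by rw [ht]; positivity
      have h2 : t ≤ ε / (1 + 2 * C) :=
        (min_le_right _ _).trans ((min_le_left _ _).trans (min_le_left _ _))
      rw [le_div_iff₀ (by positivity)] at h2
      nlinarith
    · set t := min (min (1 / (1 + L)) (1 / (1 + 2 * C))) (min (min (ε / (1 + 2 * C))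
        (d ^ 2 * ε / (1 + 8 * C))) (1 / (2 * ε))) with ht
      have ht0 : 0 < t := by rw [ht]; positivity
      have h2 : t ≤ d ^ 2 * ε / (1 + 8 * C) :=
        (min_le_right _ _).trans ((min_le_left _ _).trans (min_le_right _ _))
      rw [le_div_iff₀ (by positivity)] at h2
      nlinarith
    · set t := min (min (1 / (1 + L)) (1 / (1 + 2 * C))) (min (min (ε / (1 + 2 * C))
        (d ^ 2 * ε / (1 + 8 * C))) (1 / (2 * ε))) with ht
      have ht0 : 0 < t := by rw [ht]; positivity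
      have h2 : t ≤ 1 / (2 * ε) := (min_le_right _ _).trans (min_le_right _ _)
      rw [le_div_iff₀ (by positivity)] at h2
      nlinarith
  have hCt0 : 0 ≤ C * t ^ 2 := by positivity
  -- elementary bounds
  have hb1 : Real.exp (2 * (C * t ^ 2)) ≤ 1 + 4 * (C * t ^ 2) := by
    have h2 : |2 * (C * t ^ 2)| ≤ 1 := by
      rw [abs_of_nonneg (by positivity)]; linarith
    have h3 := (abs_le.1 (Real.abs_exp_sub_one_sub_id_le h2)).2
    have h4 : (2 * (C * t ^ 2)) ^ 2 ≤ 2 * (C * t ^ 2) := by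
      have : 2 * (C * t ^ 2) ≤ 1 := by linarith
      nlinarith
    linarith
  have hb2 : Real.exp (-(t * ε)) ≤ 1 - t * ε / 2 := by
    have htε0 : 0 < t * ε := by positivity
    have h2 : |-(t * ε)| ≤ 1 := by
      rw [abs_neg, abs_of_nonneg htε0.le]; linarith
    have h3 := (abs_le.1 (Real.abs_exp_sub_one_sub_id_le h2)).2
    nlinarith
  have hexp1 : 1 ≤ Real.exp (t * θ) := Real.one_le_exp (by positivity)
  have hCe1 : 1 ≤ Real.exp (C * t ^ 2) := Real.one_le_exp hCt0
  refine ⟨t, max (Real.exp (2 * (C * t ^ 2) - t * ε)) (1 + 4 * (C * t ^ 2) - d ^ 2 * (t * ε / 2)),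
    ht0, ht1, ?_, ?_, ?_⟩
  · exact (Real.exp_pos _).le.trans (le_max_left _ _)
  · apply max_lt
    · rw [Real.exp_lt_one_iff]
      nlinarith
    · nlinarith
  · intro x hx
    have hx0 : 0 < x := lt_of_lt_of_le ha hx.1
    have hy0 := h0 x hx
    have hy1 := h1 x hx
    have hy00 : 0 < G0 l x := lt_of_lt_of_le ha hy0.1
    have hy10 : 0 < G1 l' x := lt_of_lt_of_le ha hy1.1
    have F := Phi_bd (θ := θ) hx0 hd0 (hP0 x hx) (hP1 x hx) ht0.le htL
    have F0' := Phi_bd (θ := θ) hy00 hd0 (hP0 _ hy0) (hP1 _ hy0) ht0.le htL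
    have F1' := Phi_bd (θ := θ) hy10 hd0 (hP0 _ hy1) (hP1 _ hy1) ht0.le htL
    set S := P 0 x ^ (1 + t) + P 1 x ^ (1 + t) with hS
    set S0 := P 0 (G0 l x) ^ (1 + t) + P 1 (G0 l x) ^ (1 + t) with hS0
    set S1 := P 0 (G1 l' x) ^ (1 + t) + P 1 (G1 l' x) ^ (1 + t) with hS1
    set A0 := P 0 x ^ (1 + t) with hA0
    set A1 := P 1 x ^ (1 + t) with hA1
    set e := Real.exp (t * θ) with he
    have he2 : Real.exp (2 * t * θ) = e * e := by
      rw [he, ← Real.exp_add]
      congr 1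
      ring
    have hq0 : 0 < P 0 x := P_pos hx0 0
    have hq1 : 0 < P 1 x := P_pos hx0 1
    have hA0p : 0 < A0 := Real.rpow_pos_of_pos hq0 _
    have hA1p : 0 < A1 := Real.rpow_pos_of_pos hq1 _
    have hlow : ∀ p : ℝ, d ≤ p → p ≤ 1 → d ^ 2 ≤ p ^ (1 + t) := by
      intro p hp hp1
      have hp0 : 0 < p := hd0.trans_le hp
      have h2 : p ^ (2 : ℝ) ≤ p ^ (1 + t) :=
        Real.rpow_le_rpow_of_exponent_ge hp0 hp1 (by linarith)
      have h3 : p ^ (2 : ℝ) = p ^ 2 := by
        rw [← Real.rpow_natCast]; norm_num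
      rw [h3] at h2
      exact (pow_le_pow_left₀ hd0.le hp 2).trans h2
    have hA0d : d ^ 2 ≤ A0 := hlow _ (hP0 x hx) (P_le_one hx0 0)
    have hA1d : d ^ 2 ≤ A1 := hlow _ (hP1 x hx) (P_le_one hx0 1)
    -- general bound
    have gen : ∀ y : ℝ, θ ≤ H y → Real.exp (-(t * (H y - θ)) + C * t ^ 2) ≤
        Real.exp (C * t ^ 2) := by
      intro y hy
      apply Real.exp_le_exp.2
      have : 0 ≤ t * (H y - θ) := mul_nonneg ht0.le (by linarith)
      linarith
    have gap : ∀ y : ℝ, θ + ε ≤ H y → Real.exp (-(t * (H y - θ)) + C * t ^ 2) ≤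
        Real.exp (C * t ^ 2) * Real.exp (-(t * ε)) := by
      intro y hy
      rw [← Real.exp_add]
      apply Real.exp_le_exp.2
      have : t * ε ≤ t * (H y - θ) := mul_le_mul_of_nonneg_left (by linarith) ht0.le
      linarith
    have g0 := F0'.trans (gen _ (hθ _ hy0))
    have g1 := F1'.trans (gen _ (hθ _ hy1))
    have gx := F.trans (gen _ (hθ _ hx))
    have hlhs : Real.exp (2 * t * θ) * (A0 * S0 + A1 * S1) =
        e * A0 * (e * S0) + e * A1 * (e * S1) := by
      rw [he2]; ring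
    rw [hlhs]
    have hep : 0 < e := Real.exp_pos _
    have heA0 : 0 < e * A0 := mul_pos hep hA0p
    have heA1 : 0 < e * A1 := mul_pos hep hA1p
    have hS' : e * S = e * A0 + e * A1 := by rw [hS]; ring
    have hE2 : Real.exp (2 * (C * t ^ 2)) = Real.exp (C * t ^ 2) * Real.exp (C * t ^ 2) := by
      rw [← Real.exp_add]; congr 1; ring
    -- the case of a gap at a child
    have child : ∀ (u v : ℝ), e * S = u + v → 0 < u → 0 < v → d ^ 2 ≤ u → ∀ (p q : ℝ),
        p ≤ Real.exp (C * t ^ 2) * Real.exp (-(t * ε)) → q ≤ Real.exp (C * t ^ 2) →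
        u * p + v * q ≤ 1 + 4 * (C * t ^ 2) - d ^ 2 * (t * ε / 2) := by
      intro u v huv hu hv hdu p q hp hq
      have i1 : u * p + v * q ≤ u * (Real.exp (C * t ^ 2) * Real.exp (-(t * ε))) +
          v * Real.exp (C * t ^ 2) :=
        add_le_add (mul_le_mul_of_nonneg_left hp hu.le) (mul_le_mul_of_nonneg_left hq hv.le)
      have i2 : u * (Real.exp (C * t ^ 2) * Real.exp (-(t * ε))) + v * Real.exp (C * t ^ 2) =
          Real.exp (C * t ^ 2) * (u + v) -
            Real.exp (C * t ^ 2) * (u * (1 - Real.exp (-(t * ε)))) := by ring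
      have i3 : Real.exp (C * t ^ 2) * (u + v) ≤ 1 + 4 * (C * t ^ 2) := by
        rw [← huv]
        calc Real.exp (C * t ^ 2) * (e * S) ≤ Real.exp (C * t ^ 2) * Real.exp (C * t ^ 2) :=
              mul_le_mul_of_nonneg_left gx (Real.exp_pos _).le
          _ = Real.exp (2 * (C * t ^ 2)) := hE2.symm
          _ ≤ _ := hb1
      have htε0 : 0 < t * ε := by positivity
      have i4 : t * ε / 2 ≤ 1 - Real.exp (-(t * ε)) := by linarith
      have i5 : d ^ 2 * (t * ε / 2) ≤ u * (1 - Real.exp (-(t * ε))) :=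
        mul_le_mul hdu i4 (by positivity) hu.le
      have i6 : u * (1 - Real.exp (-(t * ε))) ≤
          Real.exp (C * t ^ 2) * (u * (1 - Real.exp (-(t * ε)))) :=
        le_mul_of_one_le_left (mul_nonneg hu.le (by linarith)) hCe1
      linarith
    rcases le_max_iff.1 (hgap x hx) with hg | hg
    · refine le_trans ?_ (le_max_left _ _)
      calc e * A0 * (e * S0) + e * A1 * (e * S1) ≤
          e * A0 * Real.exp (C * t ^ 2) + e * A1 * Real.exp (C * t ^ 2) :=
            add_le_add (mul_le_mul_of_nonneg_left g0 heA0.le)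
              (mul_le_mul_of_nonneg_left g1 heA1.le)
        _ = Real.exp (C * t ^ 2) * (e * S) := by rw [hS']; ring
        _ ≤ Real.exp (C * t ^ 2) * (Real.exp (C * t ^ 2) * Real.exp (-(t * ε))) :=
            mul_le_mul_of_nonneg_left (F.trans (gap _ hg)) (Real.exp_pos _).le
        _ = Real.exp (2 * (C * t ^ 2) - t * ε) := by
            rw [← Real.exp_add, ← Real.exp_add]
            congr 1
            ring
    · refine le_trans ?_ (le_max_right _ _)
      rcases le_max_iff.1 hg with hg | hg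
      · exact child (e * A0) (e * A1) hS' heA0 heA1
          (hA0d.trans (le_mul_of_one_le_left hA0p.le hexp1)) _ _
          (F0'.trans (gap _ hg)) g1
      · rw [add_comm]
        exact child (e * A1) (e * A0) (by rw [hS']; ring) heA1 heA0
          (hA1d.trans (le_mul_of_one_le_left hA1p.le hexp1)) _ _
          (F1'.trans (gap _ hg)) g0

end Pool.Agent.R671.DR
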