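import Mathlib

/-! Definitions for MP_19f6dc_an (capacitary lower endpoint for Moebius de Rham measures). -/

namespace Pool.Agent.R671.DR

open MeasureTheory Set
open scoped ENNReal

noncomputable section

/-- `F_0(x) = x / ((γ - λ) x + λ)`. -/
def F0 (l g x : ℝ) : ℝ := x / ((g - l) * x + l)

/-- `F_1(x) = ((q - 1) x + 1) / ((q - γ) x + γ)`. -/
def F1 (g q x : ℝ) : ℝ := ((q - 1) * x + 1) / ((q - g) * x + g)

/-- `f` is the strictly increasing left-continuous solution of the de Rham equations, and `μ` is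
the Borel probability measure on `[0,1]` with `f x = μ [0,x)`. -/
structure IsDeRham (l g q : ℝ) (f : ℝ → ℝ) (μ : Measure ℝ) : Prop where
  mono : StrictMonoOn f (Icc 0 1)
  left : ∀ x ∈ Icc (0:ℝ) 1, ContinuousWithinAt f (Icc 0 x) x
  zero : f 0 = 0
  one : f 1 = 1
  eq0 : ∀ x ∈ Icc (0:ℝ) 1, f (x / 2) = F0 l g (f x)
  eq1 : ∀ x ∈ Icc (0:ℝ) 1, f ((x + 1) / 2) = F1 g q (f x)
  prob : μ univ = 1
  supp : μ (Icc 0 1)ᶜ = 0
  cdf : ∀ x ∈ Icc (0:ℝ) 1, μ (Ico 0 x) = ENNReal.ofReal (f x)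

/-- `r_0 = (γ - λ)/(λ - 1)`, and `+∞` if `λ = 1`. -/
def r0 (l g : ℝ) : EReal := if l = 1 then ⊤ else (((g - l) / (l - 1) : ℝ) : EReal)

/-- `r_1 = q - γ`. -/
def r1 (g q : ℝ) : EReal := ((q - g : ℝ) : EReal)

/-- `p_0(y) = (y + 1)/(y + γ)`, with `p_0(∞) = 1`. -/
def p0 (g : ℝ) (y : EReal) : ℝ := if y = ⊤ then 1 else (y.toReal + 1) / (y.toReal + g)

/-- `θ_0 = min { h(p_0(y)) : y ∈ [α, β] }`, `α = min{0,r_0,r_1}`, `β = max{0,r_0,r_1}`; here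
`Real.binEntropy p = -p log p - (1-p) log (1-p)`. -/
def theta0 (l g q : ℝ) : ℝ :=
  sInf ((fun y => Real.binEntropy (p0 g y)) ''
    Icc (min 0 (min (r0 l g) (r1 g q))) (max 0 (max (r0 l g) (r1 g q))))

/-- `d_0 = θ_0 / log 2`. -/
def d0 (l g q : ℝ) : ℝ := theta0 l g q / Real.log 2

/-- The energy `∫_0^1 (∫_0^1 |x-y|^{τ-1} dω(y))^2 dx` (the kernel is `∞` on the diagonal). -/
def energy (τ : ℝ) (ω : Measure ℝ) : ℝ≥0∞ :=
  ∫⁻ x in Icc (0:ℝ) 1, (∫⁻ y in Icc (0:ℝ) 1, (ENNReal.ofReal |x - y|) ^ (τ - 1) ∂ω) ^ 2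

/-- `Qap_τ(E)`: the supremum of `ω(E)^2 / energy` over finite measures `ω` whose closed support
is contained in `E`. -/
def Qap (τ : ℝ) (E : Set ℝ) : ℝ≥0∞ :=
  ⨆ (ω : Measure ℝ) (_ : IsFiniteMeasure ω) (_ : ∃ C, IsClosed C ∧ C ⊆ E ∧ ω Cᶜ = 0),
    ω E ^ 2 / energy τ ω

/-- `E` is `s`-polar: `Qap_{(1-s)/2}(E) = 0` if `s < 1`; every set is `1`-polar. -/
def Polar (s : ℝ) (E : Set ℝ) : Prop := s < 1 → Qap ((1 - s) / 2) E = 0

/-! Internal coordinates: `x = (y+1)/(γ-1)`, `l' = q/(γ-1)`, `x0 = 1/(γ-1)`.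
Nodes of level `n` are `k < 2^n`; the children of `k` are `2k` (digit 0) and `2k+1` (digit 1). -/

/-- dyadic interval -/
def I (n k : ℕ) : Set ℝ := Ico ((k:ℝ) / 2 ^ n) (((k:ℝ) + 1) / 2 ^ n)

/-- index of the level `n` dyadic interval containing `x` -/
def idx (n : ℕ) (x : ℝ) : ℕ := ⌊(2:ℝ) ^ n * x⌋₊

/-- state map of digit 0 -/
def G0 (l x : ℝ) : ℝ := (x + 1) / l

/-- state map of digit 1 -/
def G1 (l' x : ℝ) : ℝ := l' * x / (x + 1)

/-- the state at the node `(n,k)` -/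
def X (l l' x0 : ℝ) : ℕ → ℕ → ℝ
  | 0, _ => x0
  | n + 1, k => if k % 2 = 0 then G0 l (X l l' x0 n (k / 2)) else G1 l' (X l l' x0 n (k / 2))

/-- probability of digit 0 in state `x` is `x/(x+1)`, of digit 1 is `1/(x+1)` -/
def P (k : ℕ) (x : ℝ) : ℝ := if k % 2 = 0 then x / (x + 1) else 1 / (x + 1)

/-- the mass of the node `(n,k)` -/
def Ms (l l' x0 : ℝ) : ℕ → ℕ → ℝ
  | 0, _ => 1
  | n + 1, k => Ms l l' x0 n (k / 2) * P k (X l l' x0 n (k / 2))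

/-- entropy of the state `x` -/
def H (x : ℝ) : ℝ := Real.binEntropy (x / (x + 1))

/-- lower end of the state space, `1 < l`: `min(x0, 1/(l-1), l'-1)` -/
def lo (l l' x0 : ℝ) : ℝ := min x0 (min (1 / (l - 1)) (l' - 1))

/-- upper end of the state space, `1 < l`: `max(x0, 1/(l-1), l'-1)` -/
def hi (l l' x0 : ℝ) : ℝ := max x0 (max (1 / (l - 1)) (l' - 1))

end

end Pool.Agent.R671.DR
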