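import Pool.Agent.R671.DR.Base

/-! Entropy facts (piece `DR-ENT`). -/

namespace Pool.Agent.R671.DR

open MeasureTheory Set
open scoped ENNReal

namespace ENT

theorem phi_mem {x : ℝ} (hx : 0 < x) : x / (x + 1) ∈ Icc (0 : ℝ) 1 :=
  ⟨by positivity, by rw [div_le_one (by positivity)]; linarith⟩

theorem phi_lt {a b : ℝ} (ha : 0 < a) (hab : a < b) : a / (a + 1) < b / (b + 1) := by
  rw [div_lt_div_iff₀ (by linarith) (by linarith)]
  nlinarith

end ENT

open ENT

/-- DR-ENT (b) -/
theorem H_gt {a b x : ℝ} (ha : 0 < a) (hax : a < x) (hxb : x < b) : min (H a) (H b) < H x := by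
  have hx : 0 < x := ha.trans hax
  have hb : 0 < b := hx.trans hxb
  have hab : a / (a + 1) < b / (b + 1) := phi_lt ha (hax.trans hxb)
  refine Real.strictConcave_binEntropy.lt_on_openSegment (phi_mem ha) (phi_mem hb) hab.ne ?_
  rw [openSegment_eq_Ioo hab]
  exact ⟨phi_lt ha hax, phi_lt hx hxb⟩

/-- DR-ENT (a) -/
theorem H_ge {a b x : ℝ} (ha : 0 < a) (hax : a ≤ x) (hxb : x ≤ b) : min (H a) (H b) ≤ H x := by
  rcases hax.eq_or_lt with h | h
  · rw [h]
    exact min_le_left _ _
  · rcases hxb.eq_or_lt with h' | h'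
    · rw [h']
      exact min_le_right _ _
    · exact (H_gt ha h h').le

/-- DR-ENT (c) -/
theorem theta_deg (l g q : ℝ) (hl : 1 ≤ l) (hg : 1 < g) (hq : g - 1 ≤ q)
    (h : l = 1 ∨ q = g - 1) : theta0 l g q = 0 := by
  have hr0 : ((-1 : ℝ) : EReal) ≤ r0 l g := by
    unfold r0
    split_ifs with hl1
    · exact le_top
    · rw [EReal.coe_le_coe_iff]
      have h1 : 0 < l - 1 := by
        have := lt_of_le_of_ne hl (Ne.symm hl1)
        linarith
      rw [le_div_iff₀ h1]
      linarith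
  have hr1 : ((-1 : ℝ) : EReal) ≤ r1 g q := by
    unfold r1
    rw [EReal.coe_le_coe_iff]
    linarith
  have h00 : ((-1 : ℝ) : EReal) ≤ 0 := by
    rw [← EReal.coe_zero, EReal.coe_le_coe_iff]
    norm_num
  have hα : ((-1 : ℝ) : EReal) ≤ min 0 (min (r0 l g) (r1 g q)) := le_min h00 (le_min hr0 hr1)
  unfold theta0
  refine IsLeast.csInf_eq ⟨?_, ?_⟩
  · rcases h with h | h
    · refine ⟨⊤, ⟨le_top, ?_⟩, ?_⟩
      · refine le_max_of_le_right (le_max_of_le_left ?_)
        unfold r0
        rw [if_pos h]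
      · simp [p0]
    · refine ⟨((-1 : ℝ) : EReal), ⟨?_, ?_⟩, ?_⟩
      · refine min_le_of_right_le (min_le_of_right_le ?_)
        unfold r1
        rw [EReal.coe_le_coe_iff]
        linarith
      · exact h00.trans (le_max_left _ _)
      · show Real.binEntropy (p0 g ((-1 : ℝ) : EReal)) = 0
        unfold p0
        rw [if_neg (EReal.coe_ne_top _), EReal.toReal_coe]
        norm_num
  · rintro _ ⟨y, hy, rfl⟩
    have hy1 : ((-1 : ℝ) : EReal) ≤ y := hα.trans hy.1
    simp only
    unfold p0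
    split_ifs with hyt
    · simp
    · have hyb : y ≠ ⊥ := by
        intro hb
        rw [hb] at hy1
        exact absurd hy1 (not_le.2 (EReal.bot_lt_coe _))
      lift y to ℝ using ⟨hyt, hyb⟩
      rw [EReal.coe_le_coe_iff] at hy1
      rw [EReal.toReal_coe]
      have hp : 0 < y + g := by linarith
      exact Real.binEntropy_nonneg (div_nonneg (by linarith) hp.le)
        (by rw [div_le_one hp]; linarith)

/-- DR-ENT (d) -/
theorem theta_eq (l g q : ℝ) (hl : 1 < l) (hg : 1 < g) (hq : g - 1 < q) :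
    theta0 l g q = min (H (lo l (q / (g - 1)) (1 / (g - 1))))
      (H (hi l (q / (g - 1)) (1 / (g - 1)))) := by
  have hk : 0 < g - 1 := by linarith
  have hl1 : 0 < l - 1 := by linarith
  have hl' : 1 < q / (g - 1) := by
    rw [lt_div_iff₀ hk]
    linarith
  have hx0 : 0 < 1 / (g - 1) := by positivity
  have hlo := lo_pos hl hl' hx0
  have e0 : (g - 1) * (1 / (g - 1)) - 1 = 0 := by field_simp; ring
  have e1 : (g - 1) * (1 / (l - 1)) - 1 = (g - l) / (l - 1) := by field_simp; ring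
  have e2 : (g - 1) * (q / (g - 1) - 1) - 1 = q - g := by field_simp; ring
  have eα : min (0 : EReal) (min (r0 l g) (r1 g q)) =
      (((g - 1) * lo l (q / (g - 1)) (1 / (g - 1)) - 1 : ℝ) : EReal) := by
    unfold lo r0 r1
    rw [if_neg hl.ne', mul_min_of_nonneg _ _ hk.le, mul_min_of_nonneg _ _ hk.le,
      ← min_sub_sub_right, ← min_sub_sub_right, e0, e1, e2,
      EReal.coe_strictMono.monotone.map_min, EReal.coe_strictMono.monotone.map_min]
    rfl
  have eβ : max (0 : EReal) (max (r0 l g) (r1 g q)) =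
      (((g - 1) * hi l (q / (g - 1)) (1 / (g - 1)) - 1 : ℝ) : EReal) := by
    unfold hi r0 r1
    rw [if_neg hl.ne', mul_max_of_nonneg _ _ hk.le, mul_max_of_nonneg _ _ hk.le,
      ← max_sub_sub_right, ← max_sub_sub_right, e0, e1, e2,
      EReal.coe_strictMono.monotone.map_max, EReal.coe_strictMono.monotone.map_max]
    rfl
  have hlh : lo l (q / (g - 1)) (1 / (g - 1)) ≤ hi l (q / (g - 1)) (1 / (g - 1)) :=
    (min_le_left _ _).trans (le_max_left _ _)
  obtain ⟨a, ha⟩ : ∃ a, a = lo l (q / (g - 1)) (1 / (g - 1)) := ⟨_, rfl⟩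
  obtain ⟨b, hb⟩ : ∃ b, b = hi l (q / (g - 1)) (1 / (g - 1)) := ⟨_, rfl⟩
  unfold theta0
  rw [eα, eβ, ← ha, ← hb]
  rw [← ha, ← hb] at hlh
  rw [← ha] at hlo
  have himg : ((fun y : EReal => Real.binEntropy (p0 g y)) ''
      Icc ((((g - 1) * a - 1 : ℝ) : EReal)) (((g - 1) * b - 1 : ℝ) : EReal)) = H '' Icc a b := by
    ext z
    constructor
    · rintro ⟨y, hy, rfl⟩
      have hyt : y ≠ ⊤ := fun h => by
        rw [h] at hy
        exact absurd hy.2 (not_le.2 (EReal.coe_lt_top _))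
      have hyb : y ≠ ⊥ := fun h => by
        rw [h] at hy
        exact absurd hy.1 (not_le.2 (EReal.bot_lt_coe _))
      lift y to ℝ using ⟨hyt, hyb⟩
      rw [mem_Icc, EReal.coe_le_coe_iff, EReal.coe_le_coe_iff] at hy
      have hyg : 0 < y + g := by nlinarith [hy.1]
      refine ⟨(y + 1) / (g - 1), ⟨?_, ?_⟩, ?_⟩
      · rw [le_div_iff₀ hk]
        linarith [hy.1, mul_comm a (g - 1)]
      · rw [div_le_iff₀ hk]
        linarith [hy.2, mul_comm b (g - 1)]
      · unfold H p0
        simp only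
        rw [if_neg (EReal.coe_ne_top y), EReal.toReal_coe]
        congr 1
        have : (y + 1) / (g - 1) + 1 = (y + g) / (g - 1) := by
          field_simp
          ring
        rw [this]
        field_simp
    · rintro ⟨x, hx, rfl⟩
      have hx0 : 0 < x := lt_of_lt_of_le hlo hx.1
      refine ⟨(((g - 1) * x - 1 : ℝ) : EReal), ⟨?_, ?_⟩, ?_⟩
      · rw [EReal.coe_le_coe_iff]
        have := mul_le_mul_of_nonneg_left hx.1 hk.le
        linarith
      · rw [EReal.coe_le_coe_iff]
        have := mul_le_mul_of_nonneg_left hx.2 hk.le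
        linarith
      · unfold H p0
        simp only
        rw [if_neg (EReal.coe_ne_top _), EReal.toReal_coe]
        congr 1
        have h1 : (g - 1) * x - 1 + 1 = (g - 1) * x := by ring
        have h2 : (g - 1) * x - 1 + g = (g - 1) * (x + 1) := by ring
        rw [h1, h2, mul_div_mul_left _ _ hk.ne']
  rw [himg]
  refine IsLeast.csInf_eq ⟨?_, ?_⟩
  · rcases min_choice (H a) (H b) with h | h
    · rw [h]
      exact ⟨a, ⟨le_rfl, hlh⟩, rfl⟩
    · rw [h]
      exact ⟨b, ⟨hlh, le_rfl⟩, rfl⟩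
  · rintro _ ⟨x, hx, rfl⟩
    exact H_ge hlo hx.1 hx.2

end Pool.Agent.R671.DR
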