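import Pool.Agent.R671.DR.Base

/-! DR-EX (helper657): existence of the de Rham function and its measure. -/

namespace Pool.Agent.R671.DR

open MeasureTheory Set Filter Topology
open scoped ENNReal

noncomputable section

namespace EX

variable {l g q : ℝ}

theorem D0_pos (hl : 0 < l) (hg : 0 < g) {x : ℝ} (hx : x ∈ Icc (0:ℝ) 1) :
    0 < (g - l) * x + l := by
  have h1 : (g - l) * x + l = g * x + l * (1 - x) := by ring
  rw [h1]
  rcases eq_or_lt_of_le hx.1 with h | h
  · rw [← h]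
    simpa using hl
  · have h2 : 0 < g * x := mul_pos hg h
    have h3 : 0 ≤ l * (1 - x) := mul_nonneg hl.le (by linarith [hx.2])
    linarith

theorem F0_lt (hl : 0 < l) (hg : 0 < g) {x y : ℝ} (hx : x ∈ Icc (0:ℝ) 1) (hy : y ∈ Icc (0:ℝ) 1)
    (h : x < y) : F0 l g x < F0 l g y := by
  unfold F0
  rw [div_lt_div_iff₀ (D0_pos hl hg hx) (D0_pos hl hg hy)]
  nlinarith [mul_pos hl (sub_pos.2 h)]

theorem F0_le (hl : 0 < l) (hg : 0 < g) {x y : ℝ} (hx : x ∈ Icc (0:ℝ) 1) (hy : y ∈ Icc (0:ℝ) 1)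
    (h : x ≤ y) : F0 l g x ≤ F0 l g y := by
  rcases eq_or_lt_of_le h with rfl | h
  · exact le_rfl
  · exact (F0_lt hl hg hx hy h).le

theorem F0_zero : F0 l g 0 = 0 := by simp [F0]

theorem F0_one : F0 l g 1 = 1 / g := by simp [F0]

theorem F1_lt (hg : 1 < g) (hq : 0 < q) {x y : ℝ} (hx : x ∈ Icc (0:ℝ) 1) (hy : y ∈ Icc (0:ℝ) 1)
    (h : x < y) : F1 g q x < F1 g q y := by
  unfold F1
  have hg0 : 0 < g := by linarith
  rw [div_lt_div_iff₀ (D0_pos hg0 hq hx) (D0_pos hg0 hq hy)]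
  nlinarith [mul_pos (mul_pos hq (sub_pos.2 hg)) (sub_pos.2 h)]

theorem F1_le (hg : 1 < g) (hq : 0 < q) {x y : ℝ} (hx : x ∈ Icc (0:ℝ) 1) (hy : y ∈ Icc (0:ℝ) 1)
    (h : x ≤ y) : F1 g q x ≤ F1 g q y := by
  rcases eq_or_lt_of_le h with rfl | h
  · exact le_rfl
  · exact (F1_lt hg hq hx hy h).le

theorem F1_zero : F1 g q 0 = 1 / g := by simp [F1]

theorem F1_one (hq : 0 < q) : F1 g q 1 = 1 := by
  simp only [F1]
  rw [div_eq_one_iff_eq] <;> [ring; (ring_nf; exact hq.ne')]

theorem F0_cont (hl : 0 < l) (hg : 0 < g) {x : ℝ} (hx : x ∈ Icc (0:ℝ) 1) :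
    ContinuousAt (F0 l g) x := by
  unfold F0
  exact continuousAt_id.div (by fun_prop) (D0_pos hl hg hx).ne'

theorem F1_cont (hg : 1 < g) (hq : 0 < q) {x : ℝ} (hx : x ∈ Icc (0:ℝ) 1) :
    ContinuousAt (F1 g q) x := by
  unfold F1
  exact ContinuousAt.div (by fun_prop) (by fun_prop) (D0_pos (by linarith) hq hx).ne'

/-- the approximations -/
def hh (l g q : ℝ) : ℕ → ℝ → ℝ
  | 0, _ => 0
  | n + 1, x => if x ≤ 1 / 2 then F0 l g (hh l g q n (2 * x)) else F1 g q (hh l g q n (2 * x - 1))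

theorem mem_low {x : ℝ} (hx : x ∈ Icc (0:ℝ) 1) (h : x ≤ 1 / 2) : 2 * x ∈ Icc (0:ℝ) 1 :=
  ⟨by linarith [hx.1], by linarith⟩

theorem mem_high {x : ℝ} (hx : x ∈ Icc (0:ℝ) 1) (h : ¬ x ≤ 1 / 2) : 2 * x - 1 ∈ Icc (0:ℝ) 1 :=
  ⟨by linarith [not_le.1 h], by linarith [hx.2]⟩

theorem zero_mem : (0:ℝ) ∈ Icc (0:ℝ) 1 := ⟨le_rfl, zero_le_one⟩
theorem one_mem : (1:ℝ) ∈ Icc (0:ℝ) 1 := ⟨zero_le_one, le_rfl⟩

theorem g_inv (hg : 1 < g) : 0 < 1 / g ∧ 1 / g < 1 := by
  constructor
  · positivity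
  · rw [div_lt_one (by linarith)]
    exact hg

theorem hh_mem (hl : 0 < l) (hg : 1 < g) (hq : 0 < q) (n : ℕ) :
    ∀ x ∈ Icc (0:ℝ) 1, hh l g q n x ∈ Icc (0:ℝ) 1 := by
  have hg0 : 0 < g := by linarith
  induction n with
  | zero => intro x _; exact zero_mem
  | succ n ih =>
    intro x hx
    simp only [hh]
    split_ifs with h
    · have h1 := ih _ (mem_low hx h)
      constructor
      · rw [← F0_zero (l := l) (g := g)]
        exact F0_le hl hg0 zero_mem h1 h1.1
      · refine (F0_le hl hg0 h1 one_mem h1.2).trans ?_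
        rw [F0_one]
        exact (g_inv hg).2.le
    · have h1 := ih _ (mem_high hx h)
      constructor
      · refine le_trans ?_ (F1_le hg hq zero_mem h1 h1.1)
        rw [F1_zero]
        exact (g_inv hg).1.le
      · exact (F1_le hg hq h1 one_mem h1.2).trans (F1_one hq).le

theorem hh_mono (hl : 0 < l) (hg : 1 < g) (hq : 0 < q) (n : ℕ) :
    MonotoneOn (hh l g q n) (Icc (0:ℝ) 1) := by
  have hg0 : 0 < g := by linarith
  induction n with
  | zero => intro x _ y _ _; exact le_rfl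
  | succ n ih =>
    intro x hx y hy hxy
    simp only [hh]
    split_ifs with h1 h2 h2
    · exact F0_le hl hg0 (hh_mem hl hg hq n _ (mem_low hx h1))
        (hh_mem hl hg hq n _ (mem_low hy h2)) (ih (mem_low hx h1) (mem_low hy h2) (by linarith))
    · have h3 := hh_mem hl hg hq n _ (mem_low hx h1)
      have h4 := hh_mem hl hg hq n _ (mem_high hy h2)
      calc _ ≤ F0 l g 1 := F0_le hl hg0 h3 one_mem h3.2
        _ = F1 g q 0 := by rw [F0_one, F1_zero]
        _ ≤ _ := F1_le hg hq zero_mem h4 h4.1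
    · linarith [not_le.1 h1]
    · exact F1_le hg hq (hh_mem hl hg hq n _ (mem_high hx h1))
        (hh_mem hl hg hq n _ (mem_high hy h2)) (ih (mem_high hx h1) (mem_high hy h2) (by linarith))

theorem hh_succ (hl : 0 < l) (hg : 1 < g) (hq : 0 < q) (n : ℕ) :
    ∀ x ∈ Icc (0:ℝ) 1, hh l g q n x ≤ hh l g q (n + 1) x := by
  have hg0 : 0 < g := by linarith
  induction n with
  | zero => intro x hx; exact (hh_mem hl hg hq 1 x hx).1
  | succ n ih =>
    intro x hx
    rw [hh, hh]
    split_ifs with h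
    · exact F0_le hl hg0 (hh_mem hl hg hq n _ (mem_low hx h))
        (hh_mem hl hg hq (n + 1) _ (mem_low hx h)) (ih _ (mem_low hx h))
    · exact F1_le hg hq (hh_mem hl hg hq n _ (mem_high hx h))
        (hh_mem hl hg hq (n + 1) _ (mem_high hx h)) (ih _ (mem_high hx h))

theorem hh_zero (n : ℕ) : hh l g q n 0 = 0 := by
  induction n with
  | zero => rfl
  | succ n ih =>
    rw [hh, if_pos (by norm_num), mul_zero, ih, F0_zero]

theorem hh_cont (hl : 0 < l) (hg : 1 < g) (hq : 0 < q) (n : ℕ) :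
    ∀ x ∈ Icc (0:ℝ) 1, ContinuousWithinAt (hh l g q n) (Icc 0 x) x := by
  have hg0 : 0 < g := by linarith
  induction n with
  | zero => intro x _; exact continuousWithinAt_const
  | succ n ih =>
    intro x hx
    by_cases h : x ≤ 1 / 2
    · have h1 : ContinuousWithinAt (fun y => F0 l g (hh l g q n (2 * y))) (Icc 0 x) x := by
        have h2 := ih _ (mem_low hx h)
        have h3 : ContinuousWithinAt (fun y => hh l g q n (2 * y)) (Icc 0 x) x :=
          ContinuousWithinAt.comp (t := Icc 0 (2 * x)) (f := fun y => 2 * y) h2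
            (by fun_prop) (fun y hy => ⟨by linarith [hy.1], by linarith [hy.2]⟩)
        exact ContinuousAt.comp_continuousWithinAt (f := fun y => hh l g q n (2 * y)) (x := x)
          (F0_cont hl hg0 (hh_mem hl hg hq n _ (mem_low hx h))) h3
      refine h1.congr ?_ ?_
      · intro y hy
        rw [hh, if_pos (hy.2.trans h)]
      · rw [hh, if_pos h]
    · have h1 : ContinuousWithinAt (fun y => F1 g q (hh l g q n (2 * y - 1)))
          (Icc 0 x ∩ Ioi (1 / 2)) x := by
        have h2 := ih _ (mem_high hx h)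
        have h3 : ContinuousWithinAt (fun y => hh l g q n (2 * y - 1)) (Icc 0 x ∩ Ioi (1 / 2)) x :=
          ContinuousWithinAt.comp (t := Icc 0 (2 * x - 1)) (f := fun y => 2 * y - 1) h2
            (by fun_prop) (fun y hy => ⟨by have := hy.2; simp only [mem_Ioi] at this; linarith,
              by linarith [hy.1.2]⟩)
        exact ContinuousAt.comp_continuousWithinAt (f := fun y => hh l g q n (2 * y - 1)) (x := x)
          (F1_cont hg hq (hh_mem hl hg hq n _ (mem_high hx h))) h3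
      have h4 : ContinuousWithinAt (hh l g q (n + 1)) (Icc 0 x ∩ Ioi (1 / 2)) x := by
        refine h1.congr ?_ ?_
        · intro y hy
          rw [hh, if_neg (not_le.2 hy.2)]
        · rw [hh, if_neg h]
      exact (continuousWithinAt_inter (Ioi_mem_nhds (not_le.1 h))).1 h4

/-- the de Rham function -/
def ff (l g q : ℝ) (x : ℝ) : ℝ := ⨆ n, hh l g q n x

theorem ff_bdd (hl : 0 < l) (hg : 1 < g) (hq : 0 < q) {x : ℝ} (hx : x ∈ Icc (0:ℝ) 1) :
    BddAbove (range fun n => hh l g q n x) := by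
  refine ⟨1, ?_⟩
  rintro _ ⟨n, rfl⟩
  exact (hh_mem hl hg hq n x hx).2

theorem ff_tend (hl : 0 < l) (hg : 1 < g) (hq : 0 < q) {x : ℝ} (hx : x ∈ Icc (0:ℝ) 1) :
    Tendsto (fun n => hh l g q n x) atTop (𝓝 (ff l g q x)) :=
  tendsto_atTop_ciSup (monotone_nat_of_le_succ fun n => hh_succ hl hg hq n x hx)
    (ff_bdd hl hg hq hx)

theorem hh_le_ff (hl : 0 < l) (hg : 1 < g) (hq : 0 < q) {x : ℝ} (hx : x ∈ Icc (0:ℝ) 1) (n : ℕ) :
    hh l g q n x ≤ ff l g q x := le_ciSup (ff_bdd hl hg hq hx) n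

theorem ff_mem (hl : 0 < l) (hg : 1 < g) (hq : 0 < q) {x : ℝ} (hx : x ∈ Icc (0:ℝ) 1) :
    ff l g q x ∈ Icc (0:ℝ) 1 :=
  ⟨hh_le_ff hl hg hq hx 0, ciSup_le fun n => (hh_mem hl hg hq n x hx).2⟩

theorem ff_mono (hl : 0 < l) (hg : 1 < g) (hq : 0 < q) : MonotoneOn (ff l g q) (Icc (0:ℝ) 1) := by
  intro x hx y hy hxy
  exact ciSup_le fun n => (hh_mono hl hg hq n hx hy hxy).trans (hh_le_ff hl hg hq hy n)

theorem ff_zero : ff l g q 0 = 0 := by
  unfold ff
  simp [hh_zero]

theorem ff_low (hl : 0 < l) (hg : 1 < g) (hq : 0 < q) {x : ℝ} (hx : x ∈ Icc (0:ℝ) 1) :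
    ff l g q (x / 2) = F0 l g (ff l g q x) := by
  have hx2 : x / 2 ∈ Icc (0:ℝ) 1 := ⟨by linarith [hx.1], by linarith [hx.2]⟩
  have h1 := (ff_tend hl hg hq hx2).comp (tendsto_add_atTop_nat 1)
  have h2 := ((F0_cont (g := g) hl (by linarith) (ff_mem hl hg hq hx)).tendsto).comp
    (ff_tend hl hg hq hx)
  refine tendsto_nhds_unique h1 (h2.congr ?_)
  intro n
  simp only [Function.comp]
  rw [hh, if_pos (by linarith [hx.2]), mul_div_cancel₀ _ (two_ne_zero)]

theorem ff_high' (hl : 0 < l) (hg : 1 < g) (hq : 0 < q) {x : ℝ} (hx : x ∈ Icc (0:ℝ) 1)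
    (h0 : 0 < x) : ff l g q ((x + 1) / 2) = F1 g q (ff l g q x) := by
  have hx2 : (x + 1) / 2 ∈ Icc (0:ℝ) 1 := ⟨by linarith [hx.1], by linarith [hx.2]⟩
  have h1 := (ff_tend hl hg hq hx2).comp (tendsto_add_atTop_nat 1)
  have h2 := ((F1_cont hg hq (ff_mem hl hg hq hx)).tendsto).comp (ff_tend hl hg hq hx)
  refine tendsto_nhds_unique h1 (h2.congr ?_)
  intro n
  simp only [Function.comp]
  rw [hh, if_neg (by linarith)]
  congr 2
  ring

theorem ff_one (hl : 0 < l) (hg : 1 < g) (hq : 0 < q) (hgq : g - 1 ≤ q) : ff l g q 1 = 1 := by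
  have h1 := ff_high' hl hg hq one_mem one_pos
  have h2 := ff_mem hl hg hq one_mem
  rw [show ((1:ℝ) + 1) / 2 = 1 by norm_num] at h1
  set a := ff l g q 1 with ha
  have hD : 0 < (q - g) * a + g := D0_pos (by linarith) hq h2
  unfold F1 at h1
  rw [eq_div_iff hD.ne'] at h1
  have h3 : (a - 1) * ((q - g) * a + 1) = 0 := by linear_combination h1
  rcases mul_eq_zero.1 h3 with h4 | h4
  · linarith
  · nlinarith [h2.1, h2.2]

theorem ff_high (hl : 0 < l) (hg : 1 < g) (hq : 0 < q) (hgq : g - 1 ≤ q) {x : ℝ}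
    (hx : x ∈ Icc (0:ℝ) 1) : ff l g q ((x + 1) / 2) = F1 g q (ff l g q x) := by
  rcases eq_or_lt_of_le hx.1 with h | h
  · rw [← h, ff_zero, F1_zero, zero_add, ff_low hl hg hq one_mem, ff_one hl hg hq hgq, F0_one]
  · exact ff_high' hl hg hq hx h

theorem ff_pos (hl : 0 < l) (hg : 1 < g) (hq : 0 < q) (hgq : g - 1 ≤ q) {x : ℝ}
    (hx : x ∈ Icc (0:ℝ) 1) (h0 : 0 < x) : 0 < ff l g q x := by
  have hp : ∀ n : ℕ, ((1:ℝ) / 2) ^ n ∈ Icc (0:ℝ) 1 ∧ 0 < ff l g q ((1 / 2) ^ n) := by
    intro n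
    induction n with
    | zero =>
      rw [pow_zero, ff_one hl hg hq hgq]
      exact ⟨one_mem, one_pos⟩
    | succ n ih =>
      constructor
      · exact ⟨by positivity, pow_le_one₀ (by norm_num) (by norm_num)⟩
      · rw [pow_succ, ← div_eq_mul_one_div, ff_low hl hg hq ih.1, ← F0_zero (l := l) (g := g)]
        exact F0_lt hl (by linarith) zero_mem (ff_mem hl hg hq ih.1) ih.2
  obtain ⟨n, hn⟩ := exists_pow_lt_of_lt_one h0 (show (1:ℝ) / 2 < 1 by norm_num)
  exact (hp n).2.trans_le (ff_mono hl hg hq (hp n).1 hx hn.le)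

theorem ff_strict (hl : 0 < l) (hg : 1 < g) (hq : 0 < q) (hgq : g - 1 ≤ q) :
    StrictMonoOn (ff l g q) (Icc (0:ℝ) 1) := by
  have key : ∀ n : ℕ, ∀ x ∈ Icc (0:ℝ) 1, ∀ y ∈ Icc (0:ℝ) 1, x + (1 / 2) ^ n ≤ y →
      ff l g q x < ff l g q y := by
    intro n
    induction n with
    | zero =>
      intro x hx y hy h
      have h1 : x = 0 := by
        rw [pow_zero] at h
        linarith [hx.1, hy.2]
      have h2 : y = 1 := by
        rw [pow_zero] at h
        linarith [hx.1, hy.2]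
      rw [h1, h2, ff_zero, ff_one hl hg hq hgq]
      exact one_pos
    | succ n ih =>
      intro x hx y hy h
      have hlt : x < y := by
        have : (0:ℝ) < (1 / 2) ^ (n + 1) := by positivity
        linarith
      rw [pow_succ] at h
      by_cases h1 : y ≤ 1 / 2
      · have hx' := mem_low hx (hlt.le.trans h1)
        have hy' := mem_low hy h1
        have h2 := ih _ hx' _ hy' (by linarith)
        have h3 := ff_low hl hg hq hx'
        have h4 := ff_low hl hg hq hy'
        rw [show 2 * x / 2 = x by ring] at h3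
        rw [show 2 * y / 2 = y by ring] at h4
        rw [h3, h4]
        exact F0_lt hl (by linarith) (ff_mem hl hg hq hx') (ff_mem hl hg hq hy') h2
      · have hy' := mem_high hy h1
        have h4 := ff_high hl hg hq hgq hy'
        rw [show (2 * y - 1 + 1) / 2 = y by ring] at h4
        by_cases h5 : x ≤ 1 / 2
        · have hx' := mem_low hx h5
          have h3 := ff_low hl hg hq hx'
          rw [show 2 * x / 2 = x by ring] at h3
          rw [h3, h4]
          calc _ ≤ F0 l g 1 := F0_le hl (by linarith) (ff_mem hl hg hq hx') one_mem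
                (ff_mem hl hg hq hx').2
            _ = F1 g q 0 := by rw [F0_one, F1_zero]
            _ < _ := F1_lt hg hq zero_mem (ff_mem hl hg hq hy')
                (ff_pos hl hg hq hgq hy' (by linarith [not_le.1 h1]))
        · have hx' := mem_high hx h5
          have h3 := ff_high hl hg hq hgq hx'
          rw [show (2 * x - 1 + 1) / 2 = x by ring] at h3
          rw [h3, h4]
          exact F1_lt hg hq (ff_mem hl hg hq hx') (ff_mem hl hg hq hy')
            (ih _ hx' _ hy' (by linarith))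
  intro x hx y hy hxy
  obtain ⟨n, hn⟩ := exists_pow_lt_of_lt_one (sub_pos.2 hxy) (show (1:ℝ) / 2 < 1 by norm_num)
  exact key n x hx y hy (by linarith)

theorem ff_left (hl : 0 < l) (hg : 1 < g) (hq : 0 < q) {x : ℝ} (hx : x ∈ Icc (0:ℝ) 1) :
    ContinuousWithinAt (ff l g q) (Icc 0 x) x := by
  rw [Metric.continuousWithinAt_iff]
  intro ε hε
  obtain ⟨n, hn⟩ := ((ff_tend hl hg hq hx).eventually
    (lt_mem_nhds (show ff l g q x - ε / 2 < ff l g q x by linarith))).exists
  obtain ⟨δ, hδ, h⟩ := Metric.continuousWithinAt_iff.1 (hh_cont hl hg hq n x hx) (ε / 2)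
    (by linarith)
  refine ⟨δ, hδ, fun {y} hy hd => ?_⟩
  have hy1 : y ∈ Icc (0:ℝ) 1 := ⟨hy.1, hy.2.trans hx.2⟩
  have h1 := h hy hd
  rw [Real.dist_eq, abs_lt] at h1 ⊢
  have h2 := hh_le_ff hl hg hq hy1 n
  have h3 := ff_mono hl hg hq hy1 hx hy.2
  constructor <;> linarith [h1.1]

/-- extension by constants -/
def fe (l g q x : ℝ) : ℝ := ff l g q (max 0 (min x 1))

theorem proj_mem (x : ℝ) : max 0 (min x 1) ∈ Icc (0:ℝ) 1 :=
  ⟨le_max_left _ _, max_le zero_le_one (min_le_right _ _)⟩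

theorem proj_eq {x : ℝ} (hx : x ∈ Icc (0:ℝ) 1) : max 0 (min x 1) = x := by
  rw [min_eq_left hx.2, max_eq_right hx.1]

theorem fe_mono (hl : 0 < l) (hg : 1 < g) (hq : 0 < q) : Monotone (fe l g q) := by
  intro x y hxy
  exact ff_mono hl hg hq (proj_mem x) (proj_mem y)
    (max_le_max le_rfl (min_le_min hxy le_rfl))

theorem fe_left (hl : 0 < l) (hg : 1 < g) (hq : 0 < q) (x : ℝ) :
    ContinuousWithinAt (fe l g q) (Iic x) x := by
  have h1 := ff_left hl hg hq (proj_mem x)
  exact ContinuousWithinAt.comp (t := Icc 0 (max 0 (min x 1)))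
    (f := fun y : ℝ => max 0 (min y 1)) h1 (by fun_prop)
    (fun y hy => ⟨le_max_left _ _, max_le_max le_rfl (min_le_min hy le_rfl)⟩)

/-- the reflected Stieltjes function -/
def st (hl : 0 < l) (hg : 1 < g) (hq : 0 < q) : StieltjesFunction ℝ where
  toFun x := -fe l g q (-x)
  mono' := by
    intro x y hxy
    exact neg_le_neg (fe_mono hl hg hq (neg_le_neg hxy))
  right_continuous' := by
    intro x
    refine ContinuousWithinAt.neg ?_
    exact ContinuousWithinAt.comp (t := Iic (-x)) (f := fun y : ℝ => -y) (fe_left hl hg hq (-x))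
      (by fun_prop) (fun y hy => by
        simp only [mem_Iic, neg_le_neg_iff]
        exact hy)

theorem st_apply (hl : 0 < l) (hg : 1 < g) (hq : 0 < q) (x : ℝ) :
    st hl hg hq x = -fe l g q (-x) := rfl

end EX

open EX in
/-- DR-EX (existence) -/
theorem exists_deRham (l g q : ℝ) (hl : 1 ≤ l) (hg : 1 < g) (hq : 0 < q) (hgq : g - 1 ≤ q) :
    ∃ f μ, IsDeRham l g q f μ := by
  have hl0 : 0 < l := by linarith
  have hcdf : ∀ x ∈ Icc (0:ℝ) 1,
      ((st hl0 hg hq).measure.map Neg.neg) (Ico 0 x) = ENNReal.ofReal (ff l g q x) := by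
    intro x hx
    rw [Measure.map_apply measurable_neg measurableSet_Ico]
    have h1 : (Neg.neg : ℝ → ℝ) ⁻¹' Ico 0 x = Ioc (-x) 0 := by
      ext y
      simp only [mem_preimage, mem_Ico, mem_Ioc]
      constructor
      · rintro ⟨h1, h2⟩; constructor <;> linarith
      · rintro ⟨h1, h2⟩; constructor <;> linarith
    rw [h1, StieltjesFunction.measure_Ioc, st_apply, st_apply, neg_neg, neg_zero, fe, fe,
      proj_eq hx, proj_eq zero_mem, ff_zero]
    congr 1
    ring
  have huniv : ((st hl0 hg hq).measure.map Neg.neg) univ = 1 := by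
    rw [Measure.map_apply measurable_neg MeasurableSet.univ, preimage_univ,
      StieltjesFunction.measure_univ (st hl0 hg hq) (l := -1) (u := 0)]
    · simp
    · refine tendsto_const_nhds.congr' ?_
      filter_upwards [eventually_le_atBot (-1 : ℝ)] with x hx
      rw [st_apply, fe, min_eq_right (by linarith), max_eq_right zero_le_one,
        ff_one hl0 hg hq hgq]
    · refine tendsto_const_nhds.congr' ?_
      filter_upwards [eventually_ge_atTop (0 : ℝ)] with x hx
      rw [st_apply, fe, max_eq_left ((min_le_left _ _).trans (by linarith)), ff_zero, neg_zero]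
  refine ⟨ff l g q, (st hl0 hg hq).measure.map Neg.neg, ff_strict hl0 hg hq hgq,
    fun x hx => ff_left hl0 hg hq hx, ff_zero, ff_one hl0 hg hq hgq,
    fun x hx => ff_low hl0 hg hq hx, fun x hx => ff_high hl0 hg hq hgq hx, huniv, ?_, hcdf⟩
  have hprob : IsProbabilityMeasure ((st hl0 hg hq).measure.map Neg.neg) := ⟨huniv⟩
  have h1 := hcdf 1 one_mem
  rw [ff_one hl0 hg hq hgq, ENNReal.ofReal_one] at h1
  have h2 : ((st hl0 hg hq).measure.map Neg.neg) (Ico 0 1)ᶜ = 0 := by
    rw [prob_compl_eq_zero_iff measurableSet_Ico]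
    exact h1
  exact measure_mono_null (compl_subset_compl.2 Ico_subset_Icc_self) h2

end

end Pool.Agent.R671.DR
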