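import Pool.Agent.R671.DR.Base

/-! Piece MART: a dyadic martingale with increments away from `0` is unbounded. -/

namespace Pool.Agent.R671.DR

open MeasureTheory Set Filter Topology
open scoped ENNReal NNReal

namespace Mart

lemma idx_div (n : ℕ) (x : ℝ) : idx (n + 1) x / 2 = idx n x := by
  unfold idx
  have h := Nat.floor_div_natCast ((2 : ℝ) ^ (n + 1) * x) 2
  rw [← h]
  congr 1
  push_cast
  rw [pow_succ]
  ring

lemma idx_cases (n : ℕ) (x : ℝ) : idx (n + 1) x = 2 * idx n x ∨ idx (n + 1) x = 2 * idx n x + 1 := by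
  have := idx_div n x
  omega

lemma idx_meas (n : ℕ) : Measurable (idx n) :=
  Nat.measurable_floor.comp (measurable_const.mul measurable_id)

lemma idx_lt {n : ℕ} {x : ℝ} (hx : x ∈ Ico (0 : ℝ) 1) : idx n x < 2 ^ n := by
  unfold idx
  rw [Nat.floor_lt (by have := hx.1; positivity)]
  push_cast
  have h : (0 : ℝ) < 2 ^ n := by positivity
  nlinarith [hx.2]

lemma mem_I {n : ℕ} {x : ℝ} (hx : x ∈ Ico (0 : ℝ) 1) (k : ℕ) : x ∈ I n k ↔ idx n x = k := by
  have h2 : (0 : ℝ) < 2 ^ n := by positivity
  unfold idx I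
  rw [Nat.floor_eq_iff (by have := hx.1; positivity), mem_Ico, div_le_iff₀ h2, lt_div_iff₀ h2,
    mul_comm x]

lemma I_meas (n k : ℕ) : MeasurableSet (I n k) := measurableSet_Ico

lemma int_idx (μ : Measure ℝ) [IsProbabilityMeasure μ] (hμ : μ (Ico 0 1)ᶜ = 0) (n : ℕ)
    (g : ℕ → ℝ) : ∫ x, g (idx n x) ∂μ = ∑ k ∈ Finset.range (2 ^ n), g k * μ.real (I n k) := by
  have h1 : ∀ᵐ x ∂μ, g (idx n x) =
      ∑ k ∈ Finset.range (2 ^ n), (I n k).indicator (fun _ => g k) x := by
    have h2 : ∀ᵐ x ∂μ, x ∈ Ico (0 : ℝ) 1 := hμ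
    filter_upwards [h2] with x hx
    rw [Finset.sum_eq_single (idx n x)]
    · rw [indicator_of_mem ((mem_I hx _).2 rfl)]
    · intro k _ hk
      rw [indicator_of_notMem]
      intro h
      exact hk ((mem_I hx k).1 h).symm
    · intro h
      exact absurd (Finset.mem_range.2 (idx_lt hx)) h
  rw [integral_congr_ae h1, integral_finsetSum]
  · refine Finset.sum_congr rfl fun k _ => ?_
    rw [integral_indicator_const _ (I_meas n k), smul_eq_mul, mul_comm]
  · intro k _
    exact (integrable_const _).indicator (I_meas n k)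

/-- the filtration -/
noncomputable def Fil : Filtration ℕ (inferInstance : MeasurableSpace ℝ) where
  seq := fun n => MeasurableSpace.comap (idx n) ⊤
  mono' := by
    refine monotone_nat_of_le_succ fun n => ?_
    rintro s ⟨A, -, rfl⟩
    refine ⟨(fun k => k / 2) ⁻¹' A, trivial, ?_⟩
    ext x
    simp only [mem_preimage, idx_div]
  le' := by
    intro n
    rintro s ⟨A, -, rfl⟩
    exact idx_meas n (MeasurableSet.of_discrete)

end Mart

open Mart

/-- DR-MART (a martingale whose increments stay away from 0 is unbounded above) -/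
theorem mart (μ : Measure ℝ) [IsProbabilityMeasure μ] (hμ : μ (Ico 0 1)ᶜ = 0)
    (p Z u : ℕ → ℕ → ℝ) (B c : ℝ) (hc : 0 < c) (N : ℕ)
    (hp : ∀ n k, 0 ≤ p n k ∧ p n k ≤ 1)
    (hμ0 : ∀ n k, k < 2 ^ n → μ (I (n + 1) (2 * k)) = ENNReal.ofReal (p n k) * μ (I n k))
    (hμ1 : ∀ n k, k < 2 ^ n → μ (I (n + 1) (2 * k + 1)) = ENNReal.ofReal (1 - p n k) * μ (I n k))
    (hZ0 : ∀ n k, Z (n + 1) (2 * k) = Z n k + (1 - p n k) * u n k)
    (hZ1 : ∀ n k, Z (n + 1) (2 * k + 1) = Z n k - p n k * u n k)
    (hB : ∀ n k, |u n k| ≤ B)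
    (hinc : ∀ n k, N ≤ n → c ≤ |(1 - p n k) * u n k| ∧ c ≤ |p n k * u n k|) :
    ∀ᵐ x ∂μ, ∀ M : ℝ, ∃ n, M ≤ Z n (idx n x) := by
  have hB0 : 0 ≤ B := (abs_nonneg _).trans (hB 0 0)
  set f : ℕ → ℝ → ℝ := fun n x => Z n (idx n x) with hf
  have hdiff : ∀ n x, |f (n + 1) x - f n x| ≤ B := by
    intro n x
    have h1 := hp n (idx n x)
    have h2 := hB n (idx n x)
    rcases idx_cases n x with h | h
    · have : f (n + 1) x - f n x = (1 - p n (idx n x)) * u n (idx n x) := by
        simp only [hf, h, hZ0]; ring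
      rw [this, abs_mul, abs_of_nonneg (by linarith)]
      nlinarith [abs_nonneg (u n (idx n x))]
    · have : f (n + 1) x - f n x = -(p n (idx n x) * u n (idx n x)) := by
        simp only [hf, h, hZ1]; ring
      rw [this, abs_neg, abs_mul, abs_of_nonneg h1.1]
      nlinarith [abs_nonneg (u n (idx n x))]
  have hlow : ∀ n x, N ≤ n → c ≤ |f (n + 1) x - f n x| := by
    intro n x hn
    have h1 := hinc n (idx n x) hn
    rcases idx_cases n x with h | h
    · have : f (n + 1) x - f n x = (1 - p n (idx n x)) * u n (idx n x) := by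
        simp only [hf, h, hZ0]; ring
      rw [this]; exact h1.1
    · have : f (n + 1) x - f n x = -(p n (idx n x) * u n (idx n x)) := by
        simp only [hf, h, hZ1]; ring
      rw [this, abs_neg]; exact h1.2
  have hmeas : ∀ n, Measurable (f n) := fun n =>
    (measurable_of_countable (Z n)).comp (idx_meas n)
  have hbd : ∀ n, ∀ x ∈ Ico (0 : ℝ) 1, |f n x| ≤ |Z 0 0| + n * B := by
    intro n x hx
    induction n with
    | zero =>
      have : idx 0 x = 0 := by
        have := idx_lt (n := 0) hx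
        omega
      simp [hf, this]
    | succ n ih =>
      have h1 := hdiff n x
      have h2 := abs_sub_abs_le_abs_sub (f (n + 1) x) (f n x)
      push_cast
      linarith
  have hint : ∀ n, Integrable (f n) μ := by
    intro n
    refine Integrable.of_bound (hmeas n).aestronglyMeasurable (|Z 0 0| + n * B) ?_
    have h2 : ∀ᵐ x ∂μ, x ∈ Ico (0 : ℝ) 1 := hμ
    filter_upwards [h2] with x hx
    rw [Real.norm_eq_abs]
    exact hbd n x hx
  have hadp : StronglyAdapted Fil f := by
    intro n
    refine Measurable.stronglyMeasurable ?_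
    exact (measurable_from_top (f := Z n)).comp (comap_measurable (idx n))
  have hmart : Martingale f Fil μ := by
    refine martingale_of_setIntegral_eq_succ hadp hint fun n s hs => ?_
    obtain ⟨A, -, rfl⟩ := hs
    have hms : MeasurableSet (idx n ⁻¹' A) := idx_meas n MeasurableSet.of_discrete
    classical
    have e1 : ∫ x in idx n ⁻¹' A, f n x ∂μ =
        ∫ x, (fun k => if k ∈ A then Z n k else 0) (idx n x) ∂μ := by
      rw [← integral_indicator hms]
      refine integral_congr_ae (Eventually.of_forall fun x => ?_)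
      simp only [hf, indicator, mem_preimage]
    have e2 : ∫ x in idx n ⁻¹' A, f (n + 1) x ∂μ =
        ∫ x, (fun k => if k / 2 ∈ A then Z (n + 1) k else 0) (idx (n + 1) x) ∂μ := by
      rw [← integral_indicator hms]
      refine integral_congr_ae (Eventually.of_forall fun x => ?_)
      simp only [hf, indicator, mem_preimage, idx_div]
    rw [e1, e2, int_idx μ hμ n (fun k => if k ∈ A then Z n k else 0),
      int_idx μ hμ (n + 1) (fun k => if k / 2 ∈ A then Z (n + 1) k else 0), sum_level]
    refine Finset.sum_congr rfl fun k hk => ?_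
    have hk' := Finset.mem_range.1 hk
    have h1 : (2 * k) / 2 = k := by omega
    have h2 : (2 * k + 1) / 2 = k := by omega
    have m0 : μ.real (I (n + 1) (2 * k)) = p n k * μ.real (I n k) := by
      unfold Measure.real
      rw [hμ0 n k hk', ENNReal.toReal_mul, ENNReal.toReal_ofReal (hp n k).1]
    have m1 : μ.real (I (n + 1) (2 * k + 1)) = (1 - p n k) * μ.real (I n k) := by
      unfold Measure.real
      rw [hμ1 n k hk', ENNReal.toReal_mul, ENNReal.toReal_ofReal (by linarith [(hp n k).2])]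
    simp only [h1, h2]
    split_ifs
    · rw [m0, m1, hZ0, hZ1]; ring
    · simp
  have key := hmart.submartingale.bddAbove_iff_exists_tendsto (R := ⟨B, hB0⟩)
    (Eventually.of_forall fun x n => hdiff n x)
  filter_upwards [key] with x hx
  have hnc : ¬ ∃ a, Tendsto (fun n => f n x) atTop (𝓝 a) := by
    rintro ⟨a, ha⟩
    have h1 : Tendsto (fun n => f (n + 1) x - f n x) atTop (𝓝 (a - a)) :=
      (ha.comp (tendsto_add_atTop_nat 1)).sub ha
    rw [sub_self] at h1
    obtain ⟨n₀, hn₀⟩ := Metric.tendsto_atTop.1 h1 c hc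
    have h2 := hn₀ (max n₀ N) (le_max_left _ _)
    have h3 := hlow (max n₀ N) x (le_max_right _ _)
    rw [Real.dist_eq, sub_zero] at h2
    linarith
  have hnb : ¬ BddAbove (range fun n => f n x) := fun h => hnc (hx.1 h)
  intro M
  by_contra hcon
  push Not at hcon
  exact hnb ⟨M, by rintro _ ⟨n, rfl⟩; exact (hcon n).le⟩

end Pool.Agent.R671.DR
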