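import Pool.Agent.R671.DR.Base

/-! DR-MASS: dyadic masses of the de Rham measure. -/

namespace Pool.Agent.R671.DR

open MeasureTheory Set
open scoped ENNReal

theorem den_pos {w z : ℝ} (hw : 0 < w) (h0 : 0 ≤ z) (h1 : z ≤ 1) : 0 < 1 + (w - 1) * z := by
  rcases le_or_gt z (1 / 2) with h | h
  · have : 0 ≤ w * z := by positivity
    linarith
  · have : 0 < w * z := by positivity
    linarith

theorem step0 {l g x z m D R : ℝ} (hl : l ≠ 0) (hx1 : x + 1 ≠ 0) (hD : D ≠ 0) (hR : R ≠ 0)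
    (h : D + ((g - 1) * x - 1) * z = l * R) :
    m * ((g - 1) * x) * (z / D) / (1 + ((g - 1) * x - 1) * (z / D))
      = m * (x / (x + 1)) * ((g - 1) * ((x + 1) / l)) * z / R := by
  have e : 1 + ((g - 1) * x - 1) * (z / D) = l * R / D := by
    rw [← h]
    field_simp
  rw [e]
  field_simp

theorem step1 {g x z m D N R w : ℝ} (hg : g ≠ 0) (hg1 : g - 1 ≠ 0) (hx1 : x + 1 ≠ 0) (hD : D ≠ 0)
    (hR : R ≠ 0) (h : D + ((g - 1) * x - 1) * N = (g - 1) * (x + 1) * R) (h2 : x * N = x * R + w * z) :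
    m * ((g - 1) * x) * (N / D) / (1 + ((g - 1) * x - 1) * (N / D))
      = m * ((g - 1) * x) * (1 / g) / (1 + ((g - 1) * x - 1) * (1 / g))
        + m * (1 / (x + 1)) * w * z / R := by
  have e : 1 + ((g - 1) * x - 1) * (N / D) = (g - 1) * (x + 1) * R / D := by
    rw [← h]
    field_simp
  have e2 : 1 + ((g - 1) * x - 1) * (1 / g) = (g - 1) * (x + 1) / g := by
    field_simp
    ring
  have e3 : m * ((g - 1) * x) * (N / D) / ((g - 1) * (x + 1) * R / D) = m * (x * N) / ((x + 1) * R) := by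
    field_simp
  have e4 : m * ((g - 1) * x) * (1 / g) / ((g - 1) * (x + 1) / g) = m * x / (x + 1) := by
    field_simp
  rw [e, e2, e3, e4, h2]
  field_simp

theorem mobius (l g q : ℝ) (hl : 1 ≤ l) (hg : 1 < g) (hq : 0 < q) (f : ℝ → ℝ) (μ : Measure ℝ)
    (hf : IsDeRham l g q f μ) (n : ℕ) : ∀ k : ℕ, k < 2 ^ n → ∀ t ∈ Icc (0:ℝ) 1,
    f (((k:ℝ) + t) / 2 ^ n) = f ((k:ℝ) / 2 ^ n) +
      Ms l (q / (g - 1)) (1 / (g - 1)) n k * ((g - 1) * X l (q / (g - 1)) (1 / (g - 1)) n k) * f t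
        / (1 + ((g - 1) * X l (q / (g - 1)) (1 / (g - 1)) n k - 1) * f t) := by
  have hg1 : 0 < g - 1 := by linarith
  have hl0 : 0 < l := by linarith
  have hl' : 0 < q / (g - 1) := by positivity
  have hx0 : 0 < 1 / (g - 1) := by positivity
  have hfI : ∀ t ∈ Icc (0:ℝ) 1, 0 ≤ f t ∧ f t ≤ 1 := by
    intro t ht
    have h1 := hf.mono.monotoneOn (left_mem_Icc.2 zero_le_one) ht ht.1
    have h2 := hf.mono.monotoneOn ht (right_mem_Icc.2 zero_le_one) ht.2
    rw [hf.zero] at h1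
    rw [hf.one] at h2
    exact ⟨h1, h2⟩
  induction n with
  | zero =>
    intro k hk t ht
    have hk0 : k = 0 := by simpa using hk
    subst hk0
    have h1 : (g - 1) * (1 / (g - 1)) = 1 := by field_simp
    simp only [Ms, X, Nat.cast_zero, pow_zero, div_one, zero_add, hf.zero, h1]
    simp
  | succ n ih =>
    intro k hk t ht
    obtain ⟨hz0, hz1⟩ := hfI t ht
    have hp2 : (2:ℝ) ^ n ≠ 0 := by positivity
    rcases Nat.even_or_odd' k with ⟨j, rfl | rfl⟩
    · have hj : j < 2 ^ n := by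
        rw [pow_succ] at hk
        omega
      have hX := X_pos (l' := q / (g - 1)) hl0 hl' hx0 n j
      have ht2 : t / 2 ∈ Icc (0:ℝ) 1 := ⟨by linarith [ht.1], by linarith [ht.2]⟩
      have e1 : (((2 * j : ℕ) : ℝ) + t) / 2 ^ (n + 1) = ((j : ℝ) + t / 2) / 2 ^ n := by
        rw [pow_succ]
        push_cast
        field_simp
      have e2 : ((2 * j : ℕ) : ℝ) / 2 ^ (n + 1) = (j : ℝ) / 2 ^ n := by
        rw [pow_succ]
        push_cast
        field_simp
      rw [e1, e2, ih j hj _ ht2, hf.eq0 t ht, Ms_even, X_even]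
      unfold F0 G0
      congr 1
      have hR : 0 < 1 + ((g - 1) * ((X l (q / (g - 1)) (1 / (g - 1)) n j + 1) / l) - 1) * f t := by
        apply den_pos _ hz0 hz1
        positivity
      apply step0 hl0.ne' (by positivity) _ hR.ne'
      · field_simp
        ring
      · have : 0 < (g - l) * f t + l := by
          have h3 : (g - l) * f t + l = g * f t + l * (1 - f t) := by ring
          rw [h3]
          rcases hz0.eq_or_lt with h | h
          · rw [← h]; simpa using hl0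
          · have : 0 < g * f t := by positivity
            have : 0 ≤ l * (1 - f t) := mul_nonneg hl0.le (by linarith)
            linarith
        exact this.ne'
    · have hj : j < 2 ^ n := by
        rw [pow_succ] at hk
        omega
      have hX := X_pos (l' := q / (g - 1)) hl0 hl' hx0 n j
      have ht2 : (t + 1) / 2 ∈ Icc (0:ℝ) 1 := ⟨by linarith [ht.1], by linarith [ht.2]⟩
      have ht3 : ((0:ℝ) + 1) / 2 ∈ Icc (0:ℝ) 1 := ⟨by norm_num, by norm_num⟩
      have e1 : (((2 * j + 1 : ℕ) : ℝ) + t) / 2 ^ (n + 1) = ((j : ℝ) + (t + 1) / 2) / 2 ^ n := by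
        rw [pow_succ]
        push_cast
        field_simp
        ring
      have e2 : ((2 * j + 1 : ℕ) : ℝ) / 2 ^ (n + 1) = ((j : ℝ) + (0 + 1) / 2) / 2 ^ n := by
        rw [pow_succ]
        push_cast
        field_simp
        ring
      rw [e1, e2, ih j hj _ ht2, ih j hj _ ht3, hf.eq1 t ht, hf.eq1 0 (left_mem_Icc.2 zero_le_one),
        hf.zero, Ms_odd, X_odd]
      unfold F1 G1
      rw [add_assoc]
      congr 1
      rw [mul_zero, zero_add, mul_zero, zero_add]
      have hR : 0 < 1 + ((g - 1) * (q / (g - 1) * X l (q / (g - 1)) (1 / (g - 1)) n j /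
          (X l (q / (g - 1)) (1 / (g - 1)) n j + 1)) - 1) * f t := by
        apply den_pos _ hz0 hz1
        positivity
      apply step1 (by linarith) hg1.ne' (by positivity) _ hR.ne'
      · field_simp
        ring
      · field_simp
        ring
      · have : 0 < (q - g) * f t + g := by
          have h3 : (q - g) * f t + g = q * f t + g * (1 - f t) := by ring
          rw [h3]
          rcases hz0.eq_or_lt with h | h
          · rw [← h]; simp; linarith
          · have : 0 < q * f t := by positivity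
            have : 0 ≤ g * (1 - f t) := mul_nonneg (by linarith) (by linarith)
            linarith
        exact this.ne'

/-- DR-MASS -/
theorem mass_eq (l g q : ℝ) (hl : 1 ≤ l) (hg : 1 < g) (hq : 0 < q) (f : ℝ → ℝ) (μ : Measure ℝ)
    (hf : IsDeRham l g q f μ) (n k : ℕ) (hk : k < 2 ^ n) :
    μ (I n k) = ENNReal.ofReal (Ms l (q / (g - 1)) (1 / (g - 1)) n k) := by
  have hg1 : 0 < g - 1 := by linarith
  have hl0 : 0 < l := by linarith
  have hl' : 0 < q / (g - 1) := by positivity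
  have hx0 : 0 < 1 / (g - 1) := by positivity
  have hX := X_pos (l' := q / (g - 1)) hl0 hl' hx0 n k
  have h1 := mobius l g q hl hg hq f μ hf n k hk 1 (right_mem_Icc.2 zero_le_one)
  have h2 : f (((k:ℝ) + 1) / 2 ^ n) = f ((k:ℝ) / 2 ^ n) + Ms l (q / (g - 1)) (1 / (g - 1)) n k := by
    rw [h1, hf.one]
    have h3 : (g - 1) * X l (q / (g - 1)) (1 / (g - 1)) n k ≠ 0 := by positivity
    have h4 : 1 + ((g - 1) * X l (q / (g - 1)) (1 / (g - 1)) n k - 1) * 1
        = (g - 1) * X l (q / (g - 1)) (1 / (g - 1)) n k := by ring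
    rw [h4]
    field_simp
  have h2n : (0:ℝ) < 2 ^ n := by positivity
  have hk1 : (k:ℝ) + 1 ≤ 2 ^ n := by exact_mod_cast hk
  have ha : (k:ℝ) / 2 ^ n ∈ Icc (0:ℝ) 1 := ⟨by positivity, by rw [div_le_one h2n]; linarith⟩
  have hb : ((k:ℝ) + 1) / 2 ^ n ∈ Icc (0:ℝ) 1 := ⟨by positivity, by rw [div_le_one h2n]; linarith⟩
  have hab : (k:ℝ) / 2 ^ n ≤ ((k:ℝ) + 1) / 2 ^ n := by gcongr; linarith
  have hfa : 0 ≤ f ((k:ℝ) / 2 ^ n) := by
    have h5 := hf.mono.monotoneOn (left_mem_Icc.2 zero_le_one) ha ha.1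
    rwa [hf.zero] at h5
  have hI : I n k = Ico 0 (((k:ℝ) + 1) / 2 ^ n) \ Ico 0 ((k:ℝ) / 2 ^ n) := by
    ext x
    simp only [I, mem_Ico, mem_sdiff, not_and, not_lt]
    constructor
    · rintro ⟨h5, h6⟩
      exact ⟨⟨ha.1.trans h5, h6⟩, fun _ => h5⟩
    · rintro ⟨⟨h5, h6⟩, h7⟩
      exact ⟨h7 h5, h6⟩
  rw [hI, measure_sdiff (Ico_subset_Ico_right hab) measurableSet_Ico.nullMeasurableSet
    (by rw [hf.cdf _ ha]; exact ENNReal.ofReal_ne_top), hf.cdf _ ha, hf.cdf _ hb,
    ← ENNReal.ofReal_sub _ hfa, h2]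
  congr 1
  ring

end Pool.Agent.R671.DR
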