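import Pool.Agent.R671.DR.Base

/-! DR-PT: the pointwise strict inequality. -/

namespace Pool.Agent.R671.DR

open MeasureTheory Set
open scoped ENNReal

namespace PT

theorem frac_mem {x : ℝ} (hx : 0 < x) : x / (x + 1) ∈ Icc (0:ℝ) 1 := by
  constructor
  · positivity
  · rw [div_le_one (by positivity)]; linarith

theorem frac_lt {x y : ℝ} (hx : 0 < x) (hxy : x < y) : x / (x + 1) < y / (y + 1) := by
  rw [div_lt_div_iff₀ (by linarith) (by linarith)]
  nlinarith

/-- interior points have larger entropy than the smaller end point -/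
theorem H_gt' {a b x : ℝ} (ha : 0 < a) (hax : a < x) (hxb : x < b) : min (H a) (H b) < H x := by
  have hx : 0 < x := ha.trans hax
  have hb : 0 < b := hx.trans hxb
  unfold H
  refine Real.strictConcave_binEntropy.lt_on_openSegment (frac_mem ha) (frac_mem hb)
    (frac_lt ha (hax.trans hxb)).ne ?_
  rw [openSegment_eq_Ioo (frac_lt ha (hax.trans hxb))]
  exact ⟨frac_lt ha hax, frac_lt hx hxb⟩

theorem G0_btw {l x : ℝ} (hl : 1 < l) :
    (x < 1 / (l - 1) → x < G0 l x ∧ G0 l x < 1 / (l - 1)) ∧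
    (1 / (l - 1) < x → 1 / (l - 1) < G0 l x ∧ G0 l x < x) := by
  have h1 : (0:ℝ) < l - 1 := by linarith
  have h0 : (0:ℝ) < l := by linarith
  unfold G0
  constructor
  · intro h
    rw [lt_div_iff₀ h1] at h
    constructor
    · rw [lt_div_iff₀ h0]; linarith
    · rw [div_lt_div_iff₀ h0 h1]; linarith
  · intro h
    rw [div_lt_iff₀ h1] at h
    constructor
    · rw [div_lt_div_iff₀ h1 h0]; linarith
    · rw [div_lt_iff₀ h0]; linarith

theorem G1_btw {l' x : ℝ} (hx : 0 < x) :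
    (x < l' - 1 → x < G1 l' x ∧ G1 l' x < l' - 1) ∧
    (l' - 1 < x → l' - 1 < G1 l' x ∧ G1 l' x < x) := by
  have h0 : (0:ℝ) < x + 1 := by linarith
  unfold G1
  constructor
  · intro h
    constructor
    · rw [lt_div_iff₀ h0]; nlinarith
    · rw [div_lt_iff₀ h0]; nlinarith
  · intro h
    constructor
    · rw [lt_div_iff₀ h0]; nlinarith
    · rw [div_lt_iff₀ h0]; nlinarith

end PT

/-- DR-PT -/
theorem pointwise (l l' x0 : ℝ) (hl : 1 < l) (hl' : 1 < l') (hx0 : 0 < x0)
    (hcond : ¬ ((l - 1) * (l' - 1) = 1 ∧ H (l' - 1) ≤ H x0)) (x : ℝ)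
    (hx : x ∈ Icc (lo l l' x0) (hi l l' x0)) :
    min (H (lo l l' x0)) (H (hi l l' x0)) < max (H x) (max (H (G0 l x)) (H (G1 l' x))) := by
  by_contra hcon
  rw [not_lt, max_le_iff, max_le_iff] at hcon
  obtain ⟨c1, c2, c3⟩ := hcon
  have hlo := lo_pos hl hl' hx0
  have hxpos : 0 < x := lt_of_lt_of_le hlo hx.1
  have h1 : (0:ℝ) < l - 1 := by linarith
  have a0 : lo l l' x0 ≤ 1 / (l - 1) := le_trans (min_le_right _ _) (min_le_left _ _)
  have b0 : 1 / (l - 1) ≤ hi l l' x0 := le_trans (le_max_left _ _) (le_max_right _ _)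
  have a1 : lo l l' x0 ≤ l' - 1 := le_trans (min_le_right _ _) (min_le_right _ _)
  have b1 : l' - 1 ≤ hi l l' x0 := le_trans (le_max_right _ _) (le_max_right _ _)
  have e0 : x = 1 / (l - 1) := by
    rcases lt_trichotomy x (1 / (l - 1)) with h | h | h
    · obtain ⟨k1, k2⟩ := (PT.G0_btw hl).1 h
      exact absurd c2 (not_le.2 (PT.H_gt' hlo (hx.1.trans_lt k1) (k2.trans_le b0)))
    · exact h
    · obtain ⟨k1, k2⟩ := (PT.G0_btw hl).2 h
      exact absurd c2 (not_le.2 (PT.H_gt' hlo (a0.trans_lt k1) (k2.trans_le hx.2)))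
  have e1 : x = l' - 1 := by
    rcases lt_trichotomy x (l' - 1) with h | h | h
    · obtain ⟨k1, k2⟩ := (PT.G1_btw hxpos).1 h
      exact absurd c3 (not_le.2 (PT.H_gt' hlo (hx.1.trans_lt k1) (k2.trans_le b1)))
    · exact h
    · obtain ⟨k1, k2⟩ := (PT.G1_btw hxpos).2 h
      exact absurd c3 (not_le.2 (PT.H_gt' hlo (a1.trans_lt k1) (k2.trans_le hx.2)))
  have hρ : (l - 1) * (l' - 1) = 1 := by
    rw [← e1, e0]
    field_simp
  apply hcond
  refine ⟨hρ, ?_⟩
  rw [← e1]
  refine c1.trans ?_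
  have elo : lo l l' x0 = min x0 x := by
    unfold lo
    rw [← e0, ← e1, min_self]
  have ehi : hi l l' x0 = max x0 x := by
    unfold hi
    rw [← e0, ← e1, max_self]
  rw [elo, ehi]
  rcases le_total x0 x with h | h
  · rw [min_eq_left h]
    exact min_le_left _ _
  · rw [max_eq_left h]
    exact min_le_right _ _

end Pool.Agent.R671.DR
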